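import Pool.Agent.V5helper19.QC.Stm

/-!
# Project QC, job MAIN
-/

set_option autoImplicit false
open Finset

namespace V5helper91.QC

open V5helper19.QC

theorem exp_neg_cast (α : ℝ) : Complex.exp (-(α : ℂ)) = ((Real.exp (-α) : ℝ) : ℂ) := by
  rw [Complex.ofReal_exp, Complex.ofReal_neg]

theorem GZ_pos (n : ℕ) (α : ℝ) (hα : 0 < α) : ∃ g : ℝ, 0 < g ∧ GZ n (α : ℂ) = (g : ℂ) := by
  have hq0 : 0 < Real.exp (-α) := Real.exp_pos _
  have hq1 : Real.exp (-α) < 1 := by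
    rw [Real.exp_lt_one_iff]
    linarith
  refine ⟨∏ j ∈ Icc 2 n, (1 - Real.exp (-α) ^ (n + j)) / (1 - Real.exp (-α) ^ j), ?_, ?_⟩
  · refine Finset.prod_pos fun j hj => ?_
    have hj2 : 2 ≤ j := (mem_Icc.1 hj).1
    have h1 : Real.exp (-α) ^ (n + j) < 1 := pow_lt_one₀ hq0.le hq1 (by omega)
    have h2 : Real.exp (-α) ^ j < 1 := pow_lt_one₀ hq0.le hq1 (by omega)
    exact div_pos (by linarith) (by linarith)
  · unfold GZ GC
    rw [exp_neg_cast]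
    push_cast
    rfl

theorem zz_re (α θ : ℝ) : (zz α θ).re = α := by
  simp [zz]

theorem psi_cont (h2 : S_DER) (n k : ℕ) (α : ℝ) (hα : 0 < α) : Continuous (psi n k α) := by
  rw [continuous_iff_continuousAt]
  intro θ
  unfold psi
  have hz : Continuous fun θ : ℝ => zz α θ := by
    unfold zz
    fun_prop
  have h1 : ContinuousAt (fun θ : ℝ => GZ n (zz α θ)) θ := by
    have h3 : ContinuousAt (GZ n) (zz α θ) :=
      (h2 n (zz α θ) (by rw [zz_re]; exact hα)).2.1.continuousAt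
    exact ContinuousAt.comp (f := fun θ : ℝ => zz α θ) h3 hz.continuousAt
  have h4 : ContinuousAt (fun θ : ℝ => Complex.exp ((k : ℂ) * (θ : ℂ) * Complex.I)) θ := by
    have : Continuous (fun θ : ℝ => Complex.exp ((k : ℂ) * (θ : ℂ) * Complex.I)) := by fun_prop
    exact this.continuousAt
  exact (h1.div_const _).mul h4

theorem t_MAIN (h1 : S_AN) (h2 : S_DER) (h3 : S_PSI) (h4 : S_D3) (h5 : S_D2) (h6 : S_MEAN1)
    (h7 : S_MEAN2) (h8 : S_TA) : S_MAIN := by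
  obtain ⟨C3, hC3, h4⟩ := h4
  obtain ⟨c2, C2, hc2, hC2, h5⟩ := h5
  obtain ⟨δ, hδ⟩ : ∃ δ : ℝ, δ = min (1 / 4) (c2 / (8 * C3)) := ⟨_, rfl⟩
  have hδ0 : 0 < δ := by rw [hδ]; exact lt_min (by norm_num) (by positivity)
  have hδ4 : δ ≤ 1 / 4 := by rw [hδ]; exact min_le_left _ _
  have hδ1 : δ ≤ 1 := by linarith
  have hKδ : C3 * δ ≤ c2 / 8 := by
    have h : δ ≤ c2 / (8 * C3) := by rw [hδ]; exact min_le_right _ _
    calc C3 * δ ≤ C3 * (c2 / (8 * C3)) := mul_le_mul_of_nonneg_left h hC3.le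
      _ = c2 / 8 := by field_simp
  obtain ⟨C', c', hC', hc', h8⟩ := h8 δ hδ0 hδ1
  obtain ⟨N0, hN0, h1⟩ := h1 c2 C2 C3 δ c' C' hc2 hC2 hC3 hδ0 hKδ hc' hC'
  obtain ⟨m, hm⟩ : ∃ m : ℝ, m = max N0 4 := ⟨_, rfl⟩
  have hm0 : 0 < m := by rw [hm]; exact lt_max_of_lt_left hN0
  have hmN : N0 ≤ m := by rw [hm]; exact le_max_left _ _
  have hm4 : 4 ≤ m := by rw [hm]; exact le_max_right _ _
  obtain ⟨t0, ht0⟩ := h7 (1 / m) (by positivity)
  refine ⟨⌈t0 + 1⌉₊ + 1, ⌈m⌉₊ + 2, fun n k hn hk hkn => ?_⟩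
  have hn2 : 2 ≤ n := by omega
  have hnm : m ≤ n := (Nat.le_ceil m).trans (by exact_mod_cast (by omega : ⌈m⌉₊ ≤ n))
  have hkt : t0 + 1 < k := by
    have e1 : t0 + 1 ≤ (⌈t0 + 1⌉₊ : ℝ) := Nat.le_ceil _
    have e2 : ((⌈t0 + 1⌉₊ + 1 : ℕ) : ℝ) ≤ k := by exact_mod_cast hk
    push_cast at e2
    linarith
  have hk0 : (0 : ℝ) < k := by
    have : 0 < k := by omega
    exact_mod_cast this
  have hkn' : (k : ℝ) ≤ (n : ℝ) * ((n : ℝ) - 1) / 2 := by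
    have e1 : ((2 * k : ℕ) : ℝ) ≤ ((n * (n - 1) : ℕ) : ℝ) := by exact_mod_cast hkn
    rw [Nat.cast_mul, Nat.cast_mul, Nat.cast_sub (by omega : 1 ≤ n)] at e1
    push_cast at e1
    linarith
  obtain ⟨α, l, hα, hl, hlk⟩ := h6 n k hn2 hk0 hkn'
  have hαm : α < 1 / m := by
    by_contra h
    have e1 := ht0 n α l (not_lt.1 h) hl
    have e2 := abs_le.1 e1
    have e3 := abs_le.1 hlk
    linarith [e2.1, e3.2, e3.1]
  have hinv : m ≤ 1 / α := by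
    rw [le_div_iff₀ hα]
    rw [lt_div_iff₀ hm0] at hαm
    linarith
  have hNNm : m ≤ NN n α := by
    unfold NN
    exact le_min hnm hinv
  have hNN4 : 4 ≤ NN n α := hm4.trans hNNm
  have hNN2 : 2 ≤ NN n α := by linarith
  have hNN0 : 0 < NN n α := by linarith
  obtain ⟨σ, hσ, hσ1, hσ2⟩ := h5 n α hn2 hα hNN4
  obtain ⟨g, hg, hGZ⟩ := GZ_pos n α hα
  have key := h1 (NN n α) σ (psi n k α) (hmN.trans hNNm) hσ1 hσ2 (psi_cont h2 n k α hα) ?_ ?_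
  · exact ⟨α, g, hα, hg, hGZ, key.1, key.2.1, key.2.2⟩
  · intro θ hθ
    obtain ⟨ρ, hρ1, hρ2⟩ := h3 n α (δ / NN n α) (C3 * NN n α ^ 4) k σ l hα (by positivity) (by positivity)
      hl hlk hσ (fun s hs => h4 n α s hn2 hα (hs.trans (by gcongr))) θ hθ
    refine ⟨ρ, ?_, hρ2⟩
    rw [← hρ1]
    unfold psi
    push_cast
    rfl
  · intro θ hθ1 hθ2
    have e1 := h8 n α θ hn2 hα hNN2 hθ1 hθ2
    have hgn : ‖GZ n (α : ℂ)‖ = g := by
      rw [hGZ, Complex.norm_real, Real.norm_of_nonneg hg.le]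
    have e2 : ‖Complex.exp ((k : ℂ) * (θ : ℂ) * Complex.I)‖ = 1 := by
      have : (k : ℂ) * (θ : ℂ) * Complex.I = (((k : ℝ) * θ : ℝ) : ℂ) * Complex.I := by push_cast; ring
      rw [this, Complex.norm_exp_ofReal_mul_I]
    unfold psi
    rw [norm_mul, norm_div, e2, mul_one, hgn, div_le_iff₀ hg]
    rw [hgn] at e1
    exact e1

end V5helper91.QC
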