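import Mathlib
import Pool.Agent.Helper413.Quad.Hom

/-! Homogeneous polynomials: common denominators, greatest common divisors, dimensions. -/

set_option autoImplicit false
set_option linter.unusedSectionVars false

open MvPolynomial

namespace Pool.Agent.V5helper91.QC

section gcd

variable {k : Type} [Field k] {ν : Type}

lemma isUnit_of_hom_zero (g : MvPolynomial ν k) (hg0 : g ≠ 0) (hg : g.IsHomogeneous 0) :
    IsUnit g := by
  have h1 := homogeneousComponent_eq_self hg
  rw [homogeneousComponent_zero] at h1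
  rw [← h1]
  apply IsUnit.map
  rw [isUnit_iff_ne_zero]
  intro h0
  rw [h0, map_zero] at h1
  exact hg0 h1.symm

/-- If the `H l` have no common factor and `f` divides all the `H l * g` then `f` divides `g`. -/
lemma dvd_of_dvd_mul {J : Type} (H : J → MvPolynomial ν k)
    (hH : ∀ g, (∀ l, g ∣ H l) → IsUnit g) (hne : ∃ l, H l ≠ 0) (f : MvPolynomial ν k) :
    ∀ g : MvPolynomial ν k, (∀ l, f ∣ H l * g) → f ∣ g := by
  induction f using UniqueFactorizationMonoid.induction_on_prime with
  | h₁ =>
    intro g hg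
    obtain ⟨l, hl⟩ := hne
    have h1 := hg l
    rw [zero_dvd_iff] at h1 ⊢
    exact (mul_eq_zero.1 h1).resolve_left hl
  | h₂ x hx =>
    intro g _
    exact hx.dvd
  | h₃ a p _ hp ih =>
    intro g hg
    have h1 : ∃ l, ¬ p ∣ H l := by
      by_contra hcon
      push Not at hcon
      exact hp.not_isUnit (hH p hcon)
    obtain ⟨l, hl⟩ := h1
    have h2 : p ∣ g := (hp.dvd_or_dvd ((dvd_mul_right p a).trans (hg l))).resolve_left hl
    obtain ⟨g', rfl⟩ := h2
    apply mul_dvd_mul_left p
    apply ih
    intro l'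
    have h3 := hg l'
    have h4 : H l' * (p * g') = p * (H l' * g') := by ring
    rw [h4] at h3
    exact (mul_dvd_mul_iff_left hp.ne_zero).1 h3

variable {L : Type} [Field L] [Algebra (MvPolynomial ν k) L]
  [IsFractionRing (MvPolynomial ν k) L]

/-- Common denominators. -/
lemma exists_common {J : Type} [Fintype J] (x : J → L)
    (hx : ∀ l, ∃ (n : ℕ) (a f : MvPolynomial ν k), a.IsHomogeneous n ∧ f.IsHomogeneous n ∧
      f ≠ 0 ∧ x l = algebraMap _ L a / algebraMap _ L f) :
    ∃ (D : ℕ) (G : MvPolynomial ν k) (H : J → MvPolynomial ν k), G.IsHomogeneous D ∧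
      (∀ l, (H l).IsHomogeneous D) ∧ G ≠ 0 ∧
      ∀ l, x l * algebraMap _ L G = algebraMap _ L (H l) := by
  classical
  choose n a f ha hf hf0 hxe using hx
  refine ⟨∑ l, n l, ∏ l, f l, fun l => a l * ∏ l' ∈ Finset.univ.erase l, f l', ?_, ?_, ?_, ?_⟩
  · exact IsHomogeneous.prod _ _ _ fun l _ => hf l
  · intro l
    rw [← Finset.add_sum_erase _ _ (Finset.mem_univ l)]
    exact (ha l).mul (IsHomogeneous.prod _ _ _ fun l' _ => hf l')
  · exact Finset.prod_ne_zero_iff.2 fun l _ => hf0 l
  · intro l
    rw [← Finset.mul_prod_erase _ _ (Finset.mem_univ l), hxe l, map_mul, map_mul]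
    have h1 : algebraMap (MvPolynomial ν k) L (f l) ≠ 0 := by
      rw [Ne, map_eq_zero_iff _ (IsFractionRing.injective (MvPolynomial ν k) L)]
      exact hf0 l
    field_simp

/-- Homogeneous coordinates without common factor. -/
lemma exists_coord {J : Type} [Fintype J] (x : J → L) (l₀ : J) (hl₀ : x l₀ = 1)
    (hx : ∀ l, ∃ (n : ℕ) (a f : MvPolynomial ν k), a.IsHomogeneous n ∧ f.IsHomogeneous n ∧
      f ≠ 0 ∧ x l = algebraMap _ L a / algebraMap _ L f) :
    ∃ (D : ℕ) (H : J → MvPolynomial ν k), 
      (∀ l, (H l).IsHomogeneous D) ∧ H l₀ ≠ 0 ∧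
      (∀ l, x l * algebraMap _ L (H l₀) = algebraMap _ L (H l)) ∧
      ∀ g, (∀ l, g ∣ H l) → IsUnit g := by
  classical
  have hinj := IsFractionRing.injective (MvPolynomial ν k) L
  have hex : ∃ (D : ℕ) (H : J → MvPolynomial ν k), 
      (∀ l, (H l).IsHomogeneous D) ∧ H l₀ ≠ 0 ∧
      (∀ l, x l * algebraMap _ L (H l₀) = algebraMap _ L (H l)) := by
    obtain ⟨D, G, H, hG, hH, hG0, hxH⟩ := exists_common x hx
    have h1 : G = H l₀ := by
      apply hinj
      rw [← hxH l₀, hl₀, one_mul]
    subst h1
    exact ⟨D, H, hH, hG0, hxH⟩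
  obtain ⟨H, hH, hH0, hxH⟩ := Nat.find_spec hex
  refine ⟨Nat.find hex, H, hH, hH0, hxH, ?_⟩
  intro g hg
  choose r hr using hg
  have hg0 : g ≠ 0 := by
    intro h0
    apply hH0
    rw [hr, h0, zero_mul]
  obtain ⟨a, b, hga, hrb, hab⟩ := Helper413.Quad.isHomogeneous_of_mul
    (by rw [← hr l₀]; exact hH0) (by rw [← hr l₀]; exact hH l₀)
  have hr0 : r l₀ ≠ 0 := by
    intro h0
    apply hH0
    rw [hr, h0, mul_zero]
  have hb : ∀ l, (r l).IsHomogeneous b := by
    intro l
    by_cases hl : H l = 0
    · have : r l = 0 := by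
        rw [hr l] at hl
        exact (mul_eq_zero.1 hl).resolve_left hg0
      rw [this]
      exact isHomogeneous_zero _ _ _
    · obtain ⟨a', b', hga', hrb', hab'⟩ := Helper413.Quad.isHomogeneous_of_mul
        (by rw [← hr l]; exact hl) (by rw [← hr l]; exact hH l)
      have h1 : a' = a := hga'.inj_right hga hg0
      have h2 : b' = b := by omega
      rw [← h2]
      exact hrb'
  have hmin : Nat.find hex ≤ b := by
    apply Nat.find_min' hex
    refine ⟨r, hb, hr0, ?_⟩
    intro l
    have h1 := hxH l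
    rw [hr l, hr l₀, map_mul, map_mul] at h1
    have h2 : algebraMap (MvPolynomial ν k) L g ≠ 0 := by
      rwa [Ne, map_eq_zero_iff _ hinj]
    apply mul_left_cancel₀ h2
    rw [← h1]
    ring
  have ha : a = 0 := by omega
  rw [ha] at hga
  exact isUnit_of_hom_zero g hg0 hga

/-- Square roots of homogeneous polynomials. -/
lemma exists_sqrt (ζ : L) (T : MvPolynomial ν k) (D : ℕ) (hT : T.IsHomogeneous (D + D))
    (h : ζ ^ 2 = algebraMap _ L T) :
    ∃ Z : MvPolynomial ν k, Z.IsHomogeneous D ∧ algebraMap _ L Z = ζ := by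
  obtain ⟨Z, hZ⟩ := IsIntegrallyClosed.exists_algebraMap_eq_of_isIntegral_pow
    (R := MvPolynomial ν k) (K := L) (x := ζ) (n := 2) (by norm_num) (by
      rw [h]
      exact isIntegral_algebraMap)
  refine ⟨Z, ?_, hZ⟩
  have h1 : Z * Z = T := by
    apply IsFractionRing.injective (MvPolynomial ν k) L
    rw [map_mul, hZ, ← h, pow_two]
  by_cases hZ0 : Z = 0
  · rw [hZ0]
    exact isHomogeneous_zero _ _ _
  · obtain ⟨a, b, ha, hb, hab⟩ := Helper413.Quad.isHomogeneous_of_mul (mul_ne_zero hZ0 hZ0)
      (by rw [h1]; exact hT)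
    have h2 : a = b := ha.inj_right hb hZ0
    have h3 : a = D := by omega
    rw [← h3]
    exact ha

end gcd

section dim

variable {k : Type} [Field k] {N : ℕ}

/-- Many independent polynomials of the same degree force the degree to be at least two. -/
lemma two_le_of_indep {ι : Type} [Fintype ι] (w : ι → MvPolynomial (Fin (N + 1)) k)
    (hw : LinearIndependent k w) (D : ℕ) (hD : ∀ i, (w i).IsHomogeneous D)
    (hι : N + 1 < Fintype.card ι) : 2 ≤ D := by
  classical
  by_contra hcon
  have hD2 : D = 0 ∨ D = 1 := by omega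
  rcases hD2 with rfl | rfl
  · have h1 : Set.range w ≤ Submodule.span k ({1} : Set (MvPolynomial (Fin (N + 1)) k)) := by
      rintro _ ⟨i, rfl⟩
      have h2 := homogeneousComponent_eq_self (hD i)
      rw [homogeneousComponent_zero] at h2
      rw [SetLike.mem_coe, Submodule.mem_span_singleton]
      refine ⟨coeff 0 (w i), ?_⟩
      rw [← h2, smul_eq_C_mul, mul_one, coeff_zero_C]
    have h3 := linearIndependent_le_span' w hw {1} h1
    rw [Cardinal.mk_fintype, Nat.cast_le] at h3
    simp at h3
    omega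
  · have h1 : Set.range w ≤ Submodule.span k
        (Set.range (X : Fin (N + 1) → MvPolynomial (Fin (N + 1)) k)) := by
      rintro _ ⟨i, rfl⟩
      have h2 : w i ∈ homogeneousSubmodule (Fin (N + 1)) k 1 := hD i
      rwa [homogeneousSubmodule_one_eq_span_X] at h2
    have h3 := linearIndependent_le_span' w hw _ h1
    rw [Cardinal.mk_fintype, Nat.cast_le] at h3
    have h4 := Fintype.card_range_le (X : Fin (N + 1) → MvPolynomial (Fin (N + 1)) k)
    rw [Fintype.card_fin] at h4
    omega

/-- Exponents of monomials of degree `D`. -/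
noncomputable def mexp (D : ℕ) : Fin (N + 1) ⊕ Fin N → (Fin (N + 1) →₀ ℕ)
  | Sum.inl i => Finsupp.single 0 (D - 1) + Finsupp.single i 1
  | Sum.inr i => Finsupp.single 0 (D - 2) + (Finsupp.single (Fin.succ ⟨0, i.pos⟩) 1 +
      Finsupp.single i.succ 1)

lemma mexp_degree (D : ℕ) (hD : 2 ≤ D) (i : Fin (N + 1) ⊕ Fin N) : (mexp D i).degree = D := by
  rcases i with i | i
  · simp only [mexp, map_add, Finsupp.degree_single]
    omega
  · simp only [mexp, map_add, Finsupp.degree_single]
    omega

lemma mexp_injective (D : ℕ) (hD : 2 ≤ D) : Function.Injective (mexp (N := N) D) := by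
  have hl : ∀ i : Fin (N + 1), D - 1 ≤ mexp D (Sum.inl i) 0 := by
    intro i
    simp [mexp]
  have hr : ∀ i : Fin N, mexp D (Sum.inr i) 0 = D - 2 := by
    intro i
    simp [mexp]
  have hsing : ∀ i j : Fin (N + 1), Finsupp.single i 1 = Finsupp.single j 1 → i = j := by
    intro i j h
    exact (Finsupp.single_left_injective one_ne_zero) h
  rintro (i | i) (j | j) h
  · simp only [mexp, add_right_inj] at h
    rw [hsing _ _ h]
  · have h1 := hl i
    rw [h, hr] at h1
    omega
  · have h1 := hl j
    rw [← h, hr] at h1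
    omega
  · have h1 : Finsupp.single i.succ 1 = Finsupp.single j.succ 1 := by
      simp only [mexp, add_right_inj] at h
      exact h
    have h2 := hsing _ _ h1
    rw [Fin.succ_inj] at h2
    rw [h2]

/-- The space of the polynomials of degree `D ≥ 2` is not spanned by few polynomials. -/
lemma card_le_of_span {ι : Type} [Fintype ι] (w : ι → MvPolynomial (Fin (N + 1)) k) (D : ℕ)
    (hD : 2 ≤ D) (h : ∀ f : MvPolynomial (Fin (N + 1)) k, f.IsHomogeneous D →
      f ∈ Submodule.span k (Set.range w)) : 2 * N + 1 ≤ Fintype.card ι := by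
  classical
  have h1 : LinearIndependent k (fun i : Fin (N + 1) ⊕ Fin N =>
      (monomial (mexp D i) (1 : k) : MvPolynomial (Fin (N + 1)) k)) := by
    have h2 := (basisMonomials (Fin (N + 1)) k).linearIndependent.comp _ (mexp_injective D hD)
    exact h2
  have h3 := linearIndependent_le_span' _ h1 (Set.range w) (by
    rintro _ ⟨i, rfl⟩
    exact h _ (isHomogeneous_monomial _ (mexp_degree D hD i)))
  rw [Cardinal.mk_fintype, Nat.cast_le, Fintype.card_sum, Fintype.card_fin, Fintype.card_fin] at h3
  have h4 := Fintype.card_range_le w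
  omega

end dim

end Pool.Agent.V5helper91.QC
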