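import Pool.Agent.V5helper91.QC.Defs

/-! Integral schemes with function field `F`, given by charts `Spec B`, `B` a subalgebra of `F`. -/

set_option autoImplicit false
set_option linter.unusedSectionVars false

open AlgebraicGeometry CategoryTheory TopologicalSpace

namespace Pool.Agent.V5helper91.QC

noncomputable section

section gen

variable {F : Type} [Field F] {X : Scheme.{0}} (χ : Spec (CommRingCat.of F) ⟶ X)

lemma res_res {V W Z : X.Opens} (h : W ≤ V) (h' : Z ≤ W) (s : Γ(X, V)) :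
    res h' (res h s) = res (h'.trans h) s := by
  unfold res
  rw [← CommRingCat.comp_apply, ← X.presheaf.map_comp]
  rfl

lemma res_self {V : X.Opens} (h : V ≤ V) (s : Γ(X, V)) : res h s = s := by
  unfold res
  have : (homOfLE h).op = 𝟙 (Opposite.op V) := rfl
  rw [this, X.presheaf.map_id]
  rfl

/-- The value in `F` of a section. -/
def ev (V : X.Opens) (h : ⊤ ≤ χ ⁻¹ᵁ V) : Γ(X, V) →+* F :=
  ((Scheme.ΓSpecIso (CommRingCat.of F)).hom.hom).comp (χ.appLE V ⊤ h).hom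

lemma ev_res {V W : X.Opens} (hV : ⊤ ≤ χ ⁻¹ᵁ V) (hW : ⊤ ≤ χ ⁻¹ᵁ W) (h : W ≤ V) (s : Γ(X, V)) :
    ev χ W hW (res h s) = ev χ V hV s := by
  unfold ev res
  rw [RingHom.comp_apply, RingHom.comp_apply]
  congr 1
  rw [← CommRingCat.comp_apply, Scheme.Hom.map_appLE]

lemma ev_ne_zero_iff {V : X.Opens} (hV : ⊤ ≤ χ ⁻¹ᵁ V) (s : Γ(X, V)) :
    ev χ V hV s ≠ 0 ↔ ⊤ ≤ χ ⁻¹ᵁ (X.basicOpen s) := by
  have h3 : (Spec (CommRingCat.of F)).basicOpen ((χ.appLE V ⊤ hV).hom s) =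
      ⊤ ⊓ χ ⁻¹ᵁ (X.basicOpen s) := Scheme.basicOpen_appLE χ ⊤ V hV s
  constructor
  · intro h
    have h1 : IsUnit ((χ.appLE V ⊤ hV).hom s) := by
      have h2 := (isUnit_iff_ne_zero.2 h).map (Scheme.ΓSpecIso (CommRingCat.of F)).inv.hom
      unfold ev at h2
      rwa [RingHom.comp_apply, ← CommRingCat.comp_apply, Iso.hom_inv_id] at h2
    rw [Scheme.basicOpen_of_isUnit _ h1] at h3
    rw [h3]
    exact inf_le_right
  · intro h h0
    have h1 : (χ.appLE V ⊤ hV).hom s = 0 := by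
      have h2 := congrArg (Scheme.ΓSpecIso (CommRingCat.of F)).inv.hom h0
      unfold ev at h2
      rwa [RingHom.comp_apply, ← CommRingCat.comp_apply, Iso.hom_inv_id, map_zero] at h2
    rw [h1, Scheme.basicOpen_zero] at h3
    have h4 : (⊤ : (Spec (CommRingCat.of F)).Opens) ≤ ⊥ := by
      rw [h3]
      exact le_inf le_rfl h
    obtain ⟨x⟩ : Nonempty (Spec (CommRingCat.of F)) := inferInstance
    exact h4 (show x ∈ (⊤ : (Spec (CommRingCat.of F)).Opens) from trivial)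

end gen

/-- Charts of an integral scheme with function field `F`. -/
structure Atlas {k F : Type} [Field k] [Field F] [Algebra k F] {X : Scheme.{0}}
    (p : X ⟶ Spec (CommRingCat.of k)) where
  χ : Spec (CommRingCat.of F) ⟶ X
  J : Type
  B : J → Subalgebra k F
  c : ∀ j, Spec (CommRingCat.of (B j)) ⟶ X
  oi : ∀ j, IsOpenImmersion (c j)
  cov : ∀ y : X, ∃ j, y ∈ (c j).opensRange
  hχ : ∀ j, Spec.map (CommRingCat.ofHom (B j).val.toRingHom) ≫ c j = χ
  hg : ∀ j, c j ≫ p = Spec.map (CommRingCat.ofHom (algebraMap k (B j)))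

section atlas

variable {k F : Type} [Field k] [Field F] [Algebra k F] {X : Scheme.{0}} [IsIntegral X]
  {p : X ⟶ Spec (CommRingCat.of k)} (A : Atlas (F := F) p)

instance (j : A.J) : IsOpenImmersion (A.c j) := A.oi j

/-- The charts as open subsets. -/
def Atlas.U (j : A.J) : X.Opens := (A.c j).opensRange

lemma Atlas.hgen (V : X.Opens) (hV : V ≠ ⊥) : ⊤ ≤ A.χ ⁻¹ᵁ V := by
  intro x _
  obtain ⟨y, hy⟩ : (V : Set X).Nonempty := by
    rw [Set.nonempty_iff_ne_empty]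
    intro h
    apply hV
    ext z
    rw [h]
    rfl
  obtain ⟨j, hj⟩ := A.cov y
  obtain ⟨z, hz⟩ := hj
  -- the preimage of `V` in the chart is nonempty, it contains the generic point
  have h1 : IsOpen ((A.c j) ⁻¹ᵁ V : Set (Spec (CommRingCat.of (A.B j)))) := ((A.c j) ⁻¹ᵁ V).2
  have h2 : z ∈ (A.c j) ⁻¹ᵁ V := by
    change A.c j z ∈ V
    rw [hz]
    exact hy
  have h3 : Spec.map (CommRingCat.ofHom (A.B j).val.toRingHom) x ∈ (A.c j) ⁻¹ᵁ V := by
    have h4 : Spec.map (CommRingCat.ofHom (A.B j).val.toRingHom) x ⤳ z := by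
      refine (PrimeSpectrum.le_iff_specializes (R := A.B j) _ _).1 ?_
      intro b hb
      have h5 : (A.B j).val b ∈ (x : PrimeSpectrum F).asIdeal := hb
      have h6 : (x : PrimeSpectrum F).asIdeal = ⊥ := by
        rcases Ideal.eq_bot_or_top (x : PrimeSpectrum F).asIdeal with h | h
        · exact h
        · exact absurd h (x : PrimeSpectrum F).isPrime.ne_top
      rw [h6] at h5
      have h7 : b = 0 := by
        apply Subtype.ext
        exact h5
      rw [h7]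
      exact Ideal.zero_mem _
    exact h4.mem_open h1 h2
  change A.χ x ∈ V
  rw [← A.hχ j]
  exact h3

lemma Atlas.ev_injective (V : X.Opens) (h : ⊤ ≤ A.χ ⁻¹ᵁ V) : Function.Injective (ev A.χ V h) := by
  rw [injective_iff_map_eq_zero]
  intro s hs
  by_contra h0
  have h1 : X.basicOpen s ≠ ⊥ := fun h2 => h0 ((basicOpen_eq_bot_iff s).1 h2)
  exact ((ev_ne_zero_iff A.χ h s).2 (A.hgen _ h1)) hs

lemma Atlas.hU (j : A.J) : ⊤ ≤ A.χ ⁻¹ᵁ (A.U j) := by
  intro x _
  change A.χ x ∈ A.U j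
  rw [← A.hχ j]
  exact ⟨_, rfl⟩

lemma Atlas.top_le (j : A.J) : ⊤ ≤ (A.c j) ⁻¹ᵁ (A.U j) := by
  rw [Atlas.U, Scheme.Hom.preimage_opensRange]

/-- Sections over a chart as elements of its ring. -/
def Atlas.toB (j : A.J) : Γ(X, A.U j) →+* A.B j :=
  ((Scheme.ΓSpecIso (CommRingCat.of (A.B j))).hom.hom).comp
    ((A.c j).appLE (A.U j) ⊤ (A.top_le j)).hom

lemma Atlas.toB_bijective (j : A.J) : Function.Bijective (A.toB j) := by
  have h1 : IsIso ((A.c j).app (A.U j)) := Scheme.Hom.isIso_app (A.c j) _ le_rfl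
  have h2 : IsIso ((A.c j).appLE (A.U j) ⊤ (A.top_le j)) := by
    have h3 : (A.c j) ⁻¹ᵁ (A.U j) = ⊤ := Scheme.Hom.preimage_opensRange (A.c j)
    have h4 : (A.c j).appLE (A.U j) ⊤ (A.top_le j) =
      (A.c j).app (A.U j) ≫ (Spec (CommRingCat.of (A.B j))).presheaf.map (eqToHom h3.symm).op := rfl
    rw [h4]
    infer_instance
  have h5 : Function.Bijective ((A.c j).appLE (A.U j) ⊤ (A.top_le j)).hom :=
    (asIso ((A.c j).appLE (A.U j) ⊤ (A.top_le j))).commRingCatIsoToRingEquiv.bijective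
  have h6 : Function.Bijective (Scheme.ΓSpecIso (CommRingCat.of (A.B j))).hom.hom :=
    (Scheme.ΓSpecIso (CommRingCat.of (A.B j))).commRingCatIsoToRingEquiv.bijective
  exact h6.comp h5

lemma Atlas.ev_eq_toB (j : A.J) (s : Γ(X, A.U j)) :
    ev A.χ (A.U j) (A.hU j) s = (A.toB j s : F) := by
  have h1 : ∀ (χ : Spec (CommRingCat.of F) ⟶ X) (h : ⊤ ≤ χ ⁻¹ᵁ (A.U j)),
      Spec.map (CommRingCat.ofHom (A.B j).val.toRingHom) ≫ A.c j = χ →
      ev χ (A.U j) h s = (A.toB j s : F) := by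
    rintro _ h rfl
    unfold ev Atlas.toB
    rw [RingHom.comp_apply, RingHom.comp_apply,
      ← Scheme.Hom.appLE_comp_appLE (Spec.map (CommRingCat.ofHom (A.B j).val.toRingHom)) (A.c j)
        (A.U j) ⊤ ⊤ (A.top_le j) le_top, CommRingCat.comp_apply]
    have h2 := congrArg (fun f => f.hom ((A.c j).appLE (A.U j) ⊤ (A.top_le j) s))
      (Scheme.ΓSpecIso_naturality (CommRingCat.ofHom (A.B j).val.toRingHom))
    simp only [CommRingCat.hom_comp, RingHom.comp_apply] at h2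
    have h3 : (Spec.map (CommRingCat.ofHom (A.B j).val.toRingHom)).appLE ⊤ ⊤ le_top =
      (Spec.map (CommRingCat.ofHom (A.B j).val.toRingHom)).appTop := Scheme.Hom.appLE_eq_app _
    rw [h3]
    exact h2
  exact h1 _ _ (A.hχ j)

lemma Atlas.ev_mem (j : A.J) (s : Γ(X, A.U j)) : ev A.χ (A.U j) (A.hU j) s ∈ A.B j := by
  rw [A.ev_eq_toB]
  exact (A.toB j s).2

lemma Atlas.exists_sec (j : A.J) (b : F) (hb : b ∈ A.B j) :
    ∃ s : Γ(X, A.U j), ev A.χ (A.U j) (A.hU j) s = b := by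
  obtain ⟨s, hs⟩ := (A.toB_bijective j).2 ⟨b, hb⟩
  refine ⟨s, ?_⟩
  rw [A.ev_eq_toB, hs]

lemma Atlas.isAffineOpen_U (j : A.J) : IsAffineOpen (A.U j) :=
  isAffineOpen_opensRange (A.c j)

/-- Near a point of a chart, a section is a fraction of elements of the chart ring. -/
lemma Atlas.exists_frac (j : A.J) (V : X.Opens) (hV : V ≤ A.U j) (x : X) (hx : x ∈ V)
    (s : Γ(X, V)) : ∃ (f a : Γ(X, A.U j)) (n : ℕ), x ∈ X.basicOpen f ∧
      ∃ (hf : X.basicOpen f ≤ V), res hf s * res (X.basicOpen_le f) f ^ n =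
        res (X.basicOpen_le f) a := by
  obtain ⟨f, hfV, hxf⟩ := (A.isAffineOpen_U j).exists_basicOpen_le ⟨x, hx⟩ (hV hx)
  have hloc := (A.isAffineOpen_U j).isLocalization_basicOpen f
  obtain ⟨n, a, ha⟩ := IsLocalization.Away.surj f (res hfV s : Γ(X, X.basicOpen f))
  exact ⟨f, a, n, hxf, hfV, ha⟩

/-- Gluing of sections given by an element of the function field. -/
lemma Atlas.exists_glue (V : X.Opens) (b : F)
    (h : ∀ x ∈ V, ∃ (W : X.Opens) (hW : ⊤ ≤ A.χ ⁻¹ᵁ W) (s : Γ(X, W)), x ∈ W ∧ W ≤ V ∧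
      ev A.χ W hW s = b) (hV : ⊤ ≤ A.χ ⁻¹ᵁ V) :
    ∃ s : Γ(X, V), ev A.χ V hV s = b := by
  choose W hW s hxW hWV hs using h
  let W' : V → X.Opens := fun x => W x.1 x.2
  obtain ⟨t, ht, -⟩ := X.sheaf.existsUnique_gluing' W' V (fun x => homOfLE (hWV x.1 x.2))
    (fun x hx => by
      rw [Opens.mem_iSup]
      exact ⟨⟨x, hx⟩, hxW x hx⟩)
    (fun x => s x.1 x.2) (by
      intro x y
      have h1 : ⊤ ≤ A.χ ⁻¹ᵁ (W' x ⊓ W' y) := by
        intro z hz
        exact ⟨hW x.1 x.2 hz, hW y.1 y.2 hz⟩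
      apply A.ev_injective (W' x ⊓ W' y) h1
      refine (ev_res A.χ (hW x.1 x.2) h1 inf_le_left (s x.1 x.2)).trans ?_
      refine Eq.trans ?_ (ev_res A.χ (hW y.1 y.2) h1 inf_le_right (s y.1 y.2)).symm
      rw [hs, hs])
  obtain ⟨x⟩ : Nonempty (Spec (CommRingCat.of F)) := inferInstance
  have hx : A.χ x ∈ V := hV (show x ∈ (⊤ : (Spec (CommRingCat.of F)).Opens) from trivial)
  refine ⟨t, ?_⟩
  have h2 := ht ⟨_, hx⟩
  rw [← ev_res A.χ hV (hW _ hx) (hWV _ hx) t, ← hs _ hx]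
  exact congrArg (ev A.χ (W _ hx) (hW _ hx)) h2

end atlas

end

end Pool.Agent.V5helper91.QC
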