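import Pool.Agent.V5helper91.QC.Geo
import Pool.Agent.H824.Deriv

/-! The charts of the quadric are affine spaces. -/

set_option autoImplicit false
set_option linter.unusedSectionVars false

open AlgebraicGeometry CategoryTheory TopologicalSpace

namespace Pool.Agent.V5helper91.QC

noncomputable section

lemma dual_ne {I : Type} (l : I × Bool) : dual l ≠ l := by
  intro h
  have := congrArg Prod.snd h
  simp [dual] at this

lemma dual_dual {I : Type} (l : I × Bool) : dual (dual l) = l := by
  simp [dual]

section gen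

variable {k K : Type} [Field k] [Field K] [Algebra k K]

/-- If `K` is generated as a field by `v` then it is algebraic over `k[v]`. -/
lemma isAlgebraic_of_top {ι : Type} (v : ι → K)
    (h : IntermediateField.adjoin k (Set.range v) = ⊤) :
    Algebra.IsAlgebraic (Algebra.adjoin k (Set.range v)) K := by
  constructor
  intro x
  have hx : x ∈ IntermediateField.adjoin k (Set.range v) := by
    rw [h]
    exact IntermediateField.mem_top
  rw [IntermediateField.mem_adjoin_iff_div] at hx
  obtain ⟨r, hr, s, hs, rfl⟩ := hx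
  by_cases hs0 : s = 0
  · rw [hs0, div_zero]
    exact isAlgebraic_zero
  · refine ⟨Polynomial.C ⟨s, hs⟩ * Polynomial.X - Polynomial.C ⟨r, hr⟩, ?_, ?_⟩
    · intro h0
      have h1 := congrArg (fun P => Polynomial.coeff P 1) h0
      simp only [Polynomial.coeff_sub, Polynomial.coeff_C_mul, Polynomial.coeff_X_one, mul_one,
        Polynomial.coeff_C_succ, sub_zero, Polynomial.coeff_zero] at h1
      exact hs0 (congrArg Subtype.val h1)
    · rw [map_sub, map_mul, Polynomial.aeval_C, Polynomial.aeval_X, Polynomial.aeval_C]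
      change s * (r / s) - r = 0
      field_simp
      ring

/-- Generators of a field in the number of the transcendence degree give a bijective
parametrisation of the algebra generated. -/
lemma bijective_of_top {ι : Type} [Finite ι] (v : ι → K) (B : Subalgebra k K)
    (hB : Algebra.adjoin k (Set.range v) = B)
    (h : IntermediateField.adjoin k (Set.range v) = ⊤)
    (htr : Cardinal.mk ι ≤ Algebra.trdeg k K) :
    ∃ w : ι → B, (∀ i, (w i : K) = v i) ∧
      Function.Bijective (MvPolynomial.aeval w : MvPolynomial ι k →ₐ[k] B) := by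
  have h1 := isAlgebraic_of_top v h
  have h2 := Algebra.IsAlgebraic.isTranscendenceBasis_of_le_trdeg_of_finite k v htr
  have hv : ∀ i, v i ∈ B := by
    intro i
    rw [← hB]
    exact Algebra.subset_adjoin ⟨i, rfl⟩
  refine ⟨fun i => ⟨v i, hv i⟩, fun i => rfl, ?_⟩
  have h3 : ∀ P : MvPolynomial ι k,
      ((MvPolynomial.aeval (fun i => (⟨v i, hv i⟩ : B)) P : B) : K) = MvPolynomial.aeval v P := by
    intro P
    have : (B.val.comp (MvPolynomial.aeval (fun i => (⟨v i, hv i⟩ : B)))) =
        MvPolynomial.aeval v := by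
      apply MvPolynomial.algHom_ext
      intro i
      simp
    exact DFunLike.congr_fun this P
  constructor
  · rw [injective_iff_map_eq_zero]
    intro P hP
    have h4 : MvPolynomial.aeval v P = 0 := by
      rw [← h3, hP]
      rfl
    exact (injective_iff_map_eq_zero _).1 h2.1 P h4
  · intro b
    have h4 : (b : K) ∈ Algebra.adjoin k (Set.range v) := by
      rw [hB]
      exact b.2
    rw [Algebra.adjoin_range_eq_range_aeval] at h4
    obtain ⟨P, hP⟩ := h4
    refine ⟨P, ?_⟩
    apply Subtype.ext
    rw [h3]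
    exact hP

end gen

section

variable {k K : Type} [Field k] [Field K] [Algebra k K] {I : Type} [Fintype I] [DecidableEq I]
  (Q : QData k K I)

/-- The affine coordinates of a chart. -/
def QData.v (l : I × Bool) (l' : {l' : I × Bool // l' ≠ l}) : K :=
  if l'.1 = dual l then Q.z / Q.h l else Q.h l'.1 / Q.h l

lemma QData.v_dual (l : I × Bool) : Q.v l ⟨dual l, dual_ne l⟩ = Q.z / Q.h l := by
  simp [QData.v]

lemma QData.v_of_ne (l : I × Bool) (l' : I × Bool) (h : l' ≠ l) (h2 : l' ≠ dual l) :
    Q.v l ⟨l', h⟩ = Q.h l' / Q.h l := by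
  simp [QData.v, h2]

lemma QData.rel' (l : I × Bool) :
    Q.h (dual l) / Q.h l = (Q.z / Q.h l) ^ 2 -
      ∑ i ∈ Finset.univ.erase l.1, (Q.h (i, false) / Q.h l) * (Q.h (i, true) / Q.h l) := by
  have h1 := Q.rel
  rw [← Finset.add_sum_erase _ _ (Finset.mem_univ l.1)] at h1
  have h2 : Q.h (l.1, false) * Q.h (l.1, true) = Q.h l * Q.h (dual l) := by
    obtain ⟨i, b⟩ := l
    cases b
    · rfl
    · exact mul_comm _ _
  rw [h2] at h1
  have h3 := Q.h_ne l
  have h4 : ∑ i ∈ Finset.univ.erase l.1, (Q.h (i, false) / Q.h l) * (Q.h (i, true) / Q.h l) =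
      (∑ i ∈ Finset.univ.erase l.1, Q.h (i, false) * Q.h (i, true)) / Q.h l ^ 2 := by
    rw [Finset.sum_div]
    refine Finset.sum_congr rfl fun i _ => ?_
    field_simp
  rw [h4, div_pow, h1]
  field_simp
  ring

lemma QData.adjoin_v (l : I × Bool) :
    Algebra.adjoin k (Set.range (Q.v l)) = cring Q.M (Q.h l) := by
  apply le_antisymm
  · apply Algebra.adjoin_le
    rintro _ ⟨l', rfl⟩
    unfold QData.v
    split_ifs
    · exact Algebra.subset_adjoin ⟨_, Q.z_mem, rfl⟩
    · exact Algebra.subset_adjoin ⟨_, Q.h_mem _, rfl⟩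
  · apply Algebra.adjoin_le
    have hz : Q.z / Q.h l ∈ Algebra.adjoin k (Set.range (Q.v l)) := by
      rw [← Q.v_dual]
      exact Algebra.subset_adjoin ⟨_, rfl⟩
    have hl : Q.h l / Q.h l ∈ Algebra.adjoin k (Set.range (Q.v l)) := by
      rw [div_self (Q.h_ne l)]
      exact Subalgebra.one_mem _
    have hne : ∀ l', l' ≠ dual l → Q.h l' / Q.h l ∈ Algebra.adjoin k (Set.range (Q.v l)) := by
      intro l' h2
      by_cases h : l' = l
      · rw [h]
        exact hl
      · rw [← Q.v_of_ne l l' h h2]
        exact Algebra.subset_adjoin ⟨_, rfl⟩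
    have hd : Q.h (dual l) / Q.h l ∈ Algebra.adjoin k (Set.range (Q.v l)) := by
      rw [Q.rel']
      refine Subalgebra.sub_mem _ (Subalgebra.pow_mem _ hz 2) (Subalgebra.sum_mem _ ?_)
      intro i hi
      have hi' := (Finset.mem_erase.1 hi).1
      refine Subalgebra.mul_mem _ (hne _ ?_) (hne _ ?_)
      · intro h
        exact hi' (congrArg Prod.fst h)
      · intro h
        exact hi' (congrArg Prod.fst h)
    have hall : ∀ l', Q.h l' / Q.h l ∈ Algebra.adjoin k (Set.range (Q.v l)) := by
      intro l'
      by_cases h : l' = dual l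
      · rw [h]
        exact hd
      · exact hne l' h
    rintro _ ⟨m, hm, rfl⟩
    have hm' : m ∈ Submodule.span k (Set.range Q.h ∪ {Q.z}) := hm
    induction hm' using Submodule.span_induction with
    | mem x hx =>
      rcases hx with ⟨l', rfl⟩ | hx
      · exact hall l'
      · have : x = Q.z := hx
        rw [this]
        exact hz
    | zero =>
      rw [zero_div]
      exact Subalgebra.zero_mem _
    | add x y hx hy ihx ihy =>
      rw [add_div]
      exact Subalgebra.add_mem _ (ihx hx) (ihy hy)
    | smul r x hx ihx =>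
      rw [Algebra.smul_def, mul_div_assoc]
      exact Subalgebra.mul_mem _ (Subalgebra.algebraMap_mem _ r) (ihx hx)

/-- The coordinates of a chart generate the field. -/
lemma QData.field_v (l₀ : I × Bool) (h1 : Q.h l₀ = 1)
    (htop : IntermediateField.adjoin k (Set.range Q.h ∪ {Q.z}) = ⊤) (l : I × Bool) :
    IntermediateField.adjoin k (Set.range (Q.v l)) = ⊤ := by
  have hle : ∀ x ∈ cring Q.M (Q.h l), x ∈ IntermediateField.adjoin k (Set.range (Q.v l)) := by
    intro x hx
    rw [← Q.adjoin_v] at hx
    exact IntermediateField.algebra_adjoin_le_adjoin k _ hx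
  have hinv : (Q.h l)⁻¹ ∈ IntermediateField.adjoin k (Set.range (Q.v l)) := by
    have := hle (Q.h l₀ / Q.h l) (Algebra.subset_adjoin ⟨_, Q.h_mem _, rfl⟩)
    rwa [h1, one_div] at this
  have hl : Q.h l ∈ IntermediateField.adjoin k (Set.range (Q.v l)) := by
    have := IntermediateField.inv_mem _ hinv
    rwa [inv_inv] at this
  rw [eq_top_iff, ← htop, IntermediateField.adjoin_le_iff]
  have hM : ∀ m ∈ Q.M, m ∈ IntermediateField.adjoin k (Set.range (Q.v l)) := by
    intro m hm
    have h2 := hle (m / Q.h l) (Algebra.subset_adjoin ⟨_, hm, rfl⟩)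
    have h3 := IntermediateField.mul_mem _ h2 hl
    rwa [div_mul_cancel₀ _ (Q.h_ne l)] at h3
  rintro x (⟨l', rfl⟩ | hx)
  · exact hM _ (Q.h_mem l')
  · have : x = Q.z := hx
    rw [this]
    exact hM _ Q.z_mem

end

end

end Pool.Agent.V5helper91.QC
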