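import Pool.Agent.V5helper91.QC.Chart

/-! The quadric of odd dimension, concretely. -/

set_option autoImplicit false
set_option linter.unusedSectionVars false

open AlgebraicGeometry CategoryTheory TopologicalSpace MvPolynomial

namespace Pool.Agent.V5helper91.QC

noncomputable section

variable (k : Type) [Field k] (I : Type) [Fintype I] [DecidableEq I] (i₀ : I)

/-- The index set of the variables. -/
abbrev Vr : Type := {l : I × Bool // l ≠ (i₀, false)}

/-- The polynomial ring. -/
abbrev RR : Type := MvPolynomial (Vr I i₀) k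

/-- The function field. -/
abbrev KK : Type := FractionRing (RR k I i₀)

/-- The variable of an index. -/
def vr (l : I × Bool) : RR k I i₀ := if h : l ≠ (i₀, false) then X ⟨l, h⟩ else 0

lemma vr_of_ne (l : I × Bool) (h : l ≠ (i₀, false)) : vr k I i₀ l = X ⟨l, h⟩ := dif_pos h

/-- The quadratic form. -/
def qq : RR k I i₀ := vr k I i₀ (i₀, true) ^ 2 -
  ∑ i ∈ Finset.univ.erase i₀, vr k I i₀ (i, false) * vr k I i₀ (i, true)

/-- The homogeneous coordinates. -/
def hR (l : I × Bool) : RR k I i₀ :=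
  if l = (i₀, false) then 1 else if l = (i₀, true) then qq k I i₀ else vr k I i₀ l

lemma hR_zero : hR k I i₀ (i₀, false) = 1 := if_pos rfl

lemma hR_one : hR k I i₀ (i₀, true) = qq k I i₀ := by
  unfold hR
  rw [if_neg (by simp), if_pos rfl]

lemma hR_of_ne (i : I) (hi : i ≠ i₀) (b : Bool) : hR k I i₀ (i, b) = vr k I i₀ (i, b) := by
  unfold hR
  rw [if_neg (by simp [hi]), if_neg (by simp [hi])]

lemma vr_isHomogeneous (l : I × Bool) : (vr k I i₀ l).IsHomogeneous 1 := by
  unfold vr
  split_ifs with h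
  · exact isHomogeneous_X _ _
  · exact isHomogeneous_zero _ _ _

lemma qq_isHomogeneous : (qq k I i₀).IsHomogeneous 2 := by
  unfold qq
  refine IsHomogeneous.sub ?_ ?_
  · have := (vr_isHomogeneous k I i₀ (i₀, true)).pow 2
    simpa using this
  · refine IsHomogeneous.sum _ _ _ fun i _ => ?_
    exact (vr_isHomogeneous k I i₀ (i, false)).mul (vr_isHomogeneous k I i₀ (i, true))

lemma qq_ne_zero : qq k I i₀ ≠ 0 := by
  intro h
  have h1 := congrArg (MvPolynomial.eval (fun l : Vr I i₀ => if l.1 = (i₀, true) then (1 : k) else 0)) h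
  unfold qq at h1
  rw [map_sub, map_pow, map_zero, map_sum, vr_of_ne k I i₀ (i₀, true) (by simp), eval_X,
    if_pos rfl, Finset.sum_eq_zero] at h1
  · simp at h1
  · intro i hi
    have hi' := (Finset.mem_erase.1 hi).1
    rw [map_mul, vr_of_ne k I i₀ (i, true) (by simp), eval_X, if_neg (by simp [hi']), mul_zero]

lemma hR_ne_zero (l : I × Bool) : hR k I i₀ l ≠ 0 := by
  unfold hR
  split_ifs with h1 h2
  · exact one_ne_zero
  · exact qq_ne_zero k I i₀
  · rw [vr_of_ne k I i₀ l h1]
    exact X_ne_zero _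

/-- The quadric. -/
def QQ : QData k (KK k I i₀) I where
  h l := algebraMap (RR k I i₀) (KK k I i₀) (hR k I i₀ l)
  z := algebraMap (RR k I i₀) (KK k I i₀) (vr k I i₀ (i₀, true))
  h_ne l := by
    rw [Ne, FaithfulSMul.algebraMap_eq_zero_iff]
    exact hR_ne_zero k I i₀ l
  rel := by
    simp only [← map_mul, ← map_pow, ← map_sum]
    congr 1
    rw [← Finset.add_sum_erase _ _ (Finset.mem_univ i₀), hR_zero, hR_one, one_mul]
    have : ∑ x ∈ Finset.univ.erase i₀, hR k I i₀ (x, false) * hR k I i₀ (x, true) =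
        ∑ i ∈ Finset.univ.erase i₀, vr k I i₀ (i, false) * vr k I i₀ (i, true) := by
      refine Finset.sum_congr rfl fun i hi => ?_
      have hi' := (Finset.mem_erase.1 hi).1
      rw [hR_of_ne k I i₀ i hi', hR_of_ne k I i₀ i hi']
    rw [this]
    unfold qq
    ring

lemma QQ_h (l : I × Bool) : (QQ k I i₀).h l = algebraMap (RR k I i₀) (KK k I i₀) (hR k I i₀ l) :=
  rfl

lemma QQ_z : (QQ k I i₀).z = algebraMap (RR k I i₀) (KK k I i₀) (vr k I i₀ (i₀, true)) :=
  rfl

lemma QQ_h_zero : (QQ k I i₀).h (i₀, false) = 1 := by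
  rw [QQ_h, hR_zero, map_one]

/-- The image of a variable is one of the homogeneous coordinates. -/
lemma QQ_X (l : Vr I i₀) : algebraMap (RR k I i₀) (KK k I i₀) (X l) ∈
    Set.range (QQ k I i₀).h ∪ {(QQ k I i₀).z} := by
  by_cases h : l.1 = (i₀, true)
  · right
    rw [Set.mem_singleton_iff, QQ_z, vr_of_ne k I i₀ (i₀, true) (by simp)]
    congr 2
    exact Subtype.ext h
  · left
    refine ⟨l.1, ?_⟩
    rw [QQ_h]
    unfold hR
    rw [if_neg l.2, if_neg h, vr_of_ne k I i₀ l.1 l.2]

lemma QQ_top : IntermediateField.adjoin k (Set.range (QQ k I i₀).h ∪ {(QQ k I i₀).z}) = ⊤ := by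
  rw [eq_top_iff]
  intro x _
  obtain ⟨a, b, hb, rfl⟩ := IsFractionRing.div_surjective (A := RR k I i₀) x
  have key : ∀ P : RR k I i₀, algebraMap (RR k I i₀) (KK k I i₀) P ∈
      IntermediateField.adjoin k (Set.range (QQ k I i₀).h ∪ {(QQ k I i₀).z}) := by
    intro P
    induction P using MvPolynomial.induction_on with
    | C a =>
      have : algebraMap (RR k I i₀) (KK k I i₀) (C a) = algebraMap k (KK k I i₀) a :=
        (IsScalarTower.algebraMap_apply k (RR k I i₀) (KK k I i₀) a).symm
      rw [this]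
      exact IntermediateField.algebraMap_mem _ a
    | add p q hp hq =>
      rw [map_add]
      exact IntermediateField.add_mem _ hp hq
    | mul_X p l hp =>
      rw [map_mul]
      exact IntermediateField.mul_mem _ hp (IntermediateField.subset_adjoin k _ (QQ_X k I i₀ l))
  exact IntermediateField.div_mem _ (key a) (key b)

lemma trdeg_KK : Algebra.trdeg k (KK k I i₀) = Cardinal.mk (Vr I i₀) := by
  have h1 : Algebra.trdeg k (RR k I i₀) = Cardinal.mk (Vr I i₀) := by
    rw [MvPolynomial.trdeg_of_isDomain, Cardinal.lift_id]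
  have h2 := trdeg_add_eq k (RR k I i₀) (A := KK k I i₀)
  have h3 : Algebra.trdeg (RR k I i₀) (KK k I i₀) = 0 := by
    have : Algebra.IsAlgebraic (RR k I i₀) (KK k I i₀) :=
      IsLocalization.isAlgebraic (R := RR k I i₀) (S := KK k I i₀) (nonZeroDivisors (RR k I i₀))
    exact trdeg_eq_zero
  rw [← h2, h1, h3, add_zero]

lemma card_vr (l : I × Bool) : Cardinal.mk {l' : I × Bool // l' ≠ l} = Cardinal.mk (Vr I i₀) := by
  rw [Cardinal.mk_fintype, Cardinal.mk_fintype, Fintype.card_subtype_compl,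
    Fintype.card_subtype_compl, Fintype.card_subtype_eq, Fintype.card_subtype_eq]

/-- The charts of the quadric are affine spaces. -/
lemma QQ_poly (l : I × Bool) : ∃ w : {l' : I × Bool // l' ≠ l} → cring (QQ k I i₀).M ((QQ k I i₀).h l),
    (∀ i, (w i : KK k I i₀) = (QQ k I i₀).v l i) ∧ Function.Bijective (MvPolynomial.aeval w :
        MvPolynomial {l' : I × Bool // l' ≠ l} k →ₐ[k] cring (QQ k I i₀).M ((QQ k I i₀).h l)) := by
  apply bijective_of_top ((QQ k I i₀).v l) _ ((QQ k I i₀).adjoin_v l)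
    ((QQ k I i₀).field_v (i₀, false) (QQ_h_zero k I i₀) (QQ_top k I i₀) l)
  rw [trdeg_KK, card_vr]

/-- The derivation `∂ / ∂ z`. -/
lemma exists_der [CharP k 2] : ∃ δ : Derivation k (KK k I i₀) (KK k I i₀),
    (∀ l, δ ((QQ k I i₀).h l) = 0) ∧ δ (QQ k I i₀).z = 1 := by
  obtain ⟨δ, hδ⟩ := Pool.Agent.H824.exists_derivation (k := k) (σ := Vr I i₀) (KK k I i₀)
    (fun l => if l.1 = (i₀, true) then 1 else 0)
  have hvr : ∀ i, i ≠ i₀ → ∀ b, δ (algebraMap (RR k I i₀) (KK k I i₀) (vr k I i₀ (i, b))) = 0 := by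
    intro i hi b
    rw [vr_of_ne k I i₀ (i, b) (by simp [hi]), hδ, if_neg (by simp [hi])]
  have hz : δ (QQ k I i₀).z = 1 := by
    rw [QQ_z, vr_of_ne k I i₀ (i₀, true) (by simp), hδ, if_pos rfl]
  refine ⟨δ, ?_, hz⟩
  intro l
  rw [QQ_h]
  by_cases h1 : l = (i₀, false)
  · rw [h1, hR_zero, map_one, Derivation.map_one_eq_zero]
  · by_cases h2 : l = (i₀, true)
    · rw [h2, hR_one]
      unfold qq
      have h2' : (2 : KK k I i₀) = 0 := by
        have : CharP (KK k I i₀) 2 := charP_of_injective_algebraMap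
          (algebraMap k (KK k I i₀)).injective 2
        exact CharTwo.two_eq_zero
      rw [map_sub, map_pow, map_sum, map_sub, map_sum, Finset.sum_eq_zero, sub_zero, pow_two,
        Derivation.leibniz, ← two_smul (KK k I i₀), h2', zero_smul]
      intro i hi
      have hi' := (Finset.mem_erase.1 hi).1
      rw [map_mul, Derivation.leibniz, hvr i hi', hvr i hi', smul_zero, smul_zero, add_zero]
    · have h3 : l.1 ≠ i₀ := by
        intro h3
        obtain ⟨i, b⟩ := l
        change i = i₀ at h3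
        subst h3
        cases b
        · exact h1 rfl
        · exact h2 rfl
      have h4 : hR k I i₀ l = vr k I i₀ (l.1, l.2) := hR_of_ne k I i₀ l.1 h3 l.2
      rw [h4]
      exact hvr l.1 h3 l.2

end

end Pool.Agent.V5helper91.QC
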