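import Mathlib

/-!
# Ample line bundles, vector fields, maps from a line bundle to the tangent bundle

Everything is over a field `k`; a `k`-scheme is a scheme `X` with a morphism `p : X ⟶ Spec k`.
-/

set_option autoImplicit false

open AlgebraicGeometry CategoryTheory

namespace Pool.Agent.V5helper91.QC

noncomputable section

/-- Restriction of regular functions from an open set `V` to a smaller open set `W`. -/
def res {X : Scheme.{0}} {V W : X.Opens} (h : W ≤ V) : Γ(X, V) →+* Γ(X, W) :=
  (X.presheaf.map (homOfLE h).op).hom

/-- The constants: the ring homomorphism from the base field `k` to the regular functions on an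
open set `V` of the `k`-scheme `X`. -/
def scal {k : Type} [Field k] {X : Scheme.{0}} (p : X ⟶ Spec (CommRingCat.of k)) (V : X.Opens) :
    k →+* Γ(X, V) :=
  ((p.appLE ⊤ V le_top).hom).comp (Scheme.ΓSpecIso (CommRingCat.of k)).inv.hom

/-- A line bundle (invertible sheaf) `L` on `X`, given by an open cover `U i`, on whose members `L`
has frames `e i`, and by the transition functions `g i j` on `U i ∩ U j`, with `e j = g i j * e i`. -/
structure LineBundle (X : Scheme.{0}) where
  /-- the index set of the cover -/
  ι : Type
  /-- the members of the cover -/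
  U : ι → X.Opens
  covers : ∀ x : X, ∃ i, x ∈ U i
  /-- the transition functions -/
  g : ∀ i j, Γ(X, U i ⊓ U j)
  self : ∀ i, g i i = 1
  cocycle : ∀ (i j l : ι) (W : X.Opens) (hi : W ≤ U i) (hj : W ≤ U j) (hl : W ≤ U l),
    res (le_inf hi hj) (g i j) * res (le_inf hj hl) (g j l) = res (le_inf hi hl) (g i l)

/-- A global section of the tensor power `L ^ n`: it is `s i * (e i) ^ n` on `U i`, so that
`s i = (g i j) ^ n * s j` on `U i ∩ U j`. -/
structure LineBundle.PowSection {X : Scheme.{0}} (L : LineBundle X) (n : ℕ) where
  /-- the coordinates of the section -/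
  s : ∀ i, Γ(X, L.U i)
  compat : ∀ (i j : L.ι) (W : X.Opens) (hi : W ≤ L.U i) (hj : W ≤ L.U j),
    res hi (s i) = res (le_inf hi hj) (L.g i j) ^ n * res hj (s j)

/-- The open set where a section of a power of `L` does not vanish. -/
def LineBundle.PowSection.nonvanishing {X : Scheme.{0}} {L : LineBundle X} {n : ℕ}
    (s : L.PowSection n) : X.Opens :=
  ⨆ i, X.basicOpen (s.s i)

/-- The line bundle `L` is ample: `X` is quasi-compact, and every point of `X` lies in an open set
`X_s` which is affine, for a section `s` of some power `L ^ n`, `n ≥ 1`. -/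
def LineBundle.IsAmple {X : Scheme.{0}} (L : LineBundle X) : Prop :=
  CompactSpace X ∧ ∀ x : X, ∃ (n : ℕ) (s : L.PowSection n), 1 ≤ n ∧ x ∈ s.nonvanishing ∧
    IsAffineOpen s.nonvanishing

/-- A vector field on the open subset `U` of the `k`-scheme `X`, i.e. a section over `U` of the
tangent sheaf `T_X = Hom(Ω_X, O_X)`: a derivation over `k` of the sheaf of rings `O_U`. -/
structure VectorField {k : Type} [Field k] {X : Scheme.{0}} (p : X ⟶ Spec (CommRingCat.of k))
    (U : X.Opens) where
  /-- the derivation of the ring of regular functions on `V` -/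
  D : ∀ V : X.Opens, V ≤ U → Γ(X, V) → Γ(X, V)
  add : ∀ (V : X.Opens) (hV : V ≤ U) (a b : Γ(X, V)), D V hV (a + b) = D V hV a + D V hV b
  leibniz : ∀ (V : X.Opens) (hV : V ≤ U) (a b : Γ(X, V)),
    D V hV (a * b) = a * D V hV b + b * D V hV a
  const : ∀ (V : X.Opens) (hV : V ≤ U) (c : k), D V hV (scal p V c) = 0
  compat : ∀ (V W : X.Opens) (hV : V ≤ U) (h : W ≤ V) (a : Γ(X, V)),
    res h (D V hV a) = D W (h.trans hV) (res h a)

/-- A homomorphism `φ : L ⟶ T_X` from the line bundle `L` to the tangent sheaf of `X`. It is given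
by the vector fields `φ (e i)` on `U i`, the images of the frames of `L`, with
`φ (e j) = g i j * φ (e i)` on `U i ∩ U j`. -/
structure ToTangent {k : Type} [Field k] {X : Scheme.{0}} (p : X ⟶ Spec (CommRingCat.of k))
    (L : LineBundle X) where
  /-- the images of the frames -/
  v : ∀ i, VectorField p (L.U i)
  compat : ∀ (i j : L.ι) (V : X.Opens) (hi : V ≤ L.U i) (hj : V ≤ L.U j) (a : Γ(X, V)),
    (v j).D V hj a = res (le_inf hi hj) (L.g i j) * (v i).D V hi a

/-- The homomorphism `φ : L ⟶ T_X` is nonzero at every point of `X`: for `x ∈ U i` there is a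
function `a` near `x` such that its derivative with respect to the vector field `φ (e i)` does not
vanish at `x`. (If `X` is smooth over `k` this means that `φ` identifies `L` with a subbundle of
`T_X`.) -/
def ToTangent.NowhereZero {k : Type} [Field k] {X : Scheme.{0}}
    {p : X ⟶ Spec (CommRingCat.of k)} {L : LineBundle X} (φ : ToTangent p L) : Prop :=
  ∀ (x : X) (i : L.ι), x ∈ L.U i →
    ∃ (V : X.Opens) (hV : V ≤ L.U i) (a : Γ(X, V)), x ∈ X.basicOpen ((φ.v i).D V hV a)

attribute [local instance] MvPolynomial.gradedAlgebra

/-- Projective space of dimension `n` over `k`, as a scheme. -/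
def PP (k : Type) [Field k] (n : ℕ) : Scheme.{0} :=
  Proj (MvPolynomial.homogeneousSubmodule (Fin (n + 1)) k)

end

end Pool.Agent.V5helper91.QC
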