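import Mathlib

/-! Infinitely divisible elements of rational function fields are constants. -/

set_option autoImplicit false

open MvPolynomial

namespace Pool.Agent.V5helper91.QC

variable {k : Type} [Field k] {τ : Type}

lemma totalDegree_pow' (c : MvPolynomial τ k) (hc : c ≠ 0) (n : ℕ) :
    (c ^ n).totalDegree = n * c.totalDegree := by
  induction n with
  | zero => simp
  | succ n ih =>
    rw [pow_succ, totalDegree_mul_of_isDomain (pow_ne_zero n hc) hc, ih]
    ring

lemma totalDegree_eq_zero_of_pow_dvd (a c : MvPolynomial τ k) (ha : a ≠ 0) (n : ℕ)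
    (hn : a.totalDegree < n) (h : c ^ n ∣ a) : c.totalDegree = 0 := by
  obtain ⟨r, rfl⟩ := h
  have hcn : c ^ n ≠ 0 := left_ne_zero_of_mul ha
  have hr : r ≠ 0 := right_ne_zero_of_mul ha
  have hc : c ≠ 0 := by
    rintro rfl
    apply hcn
    rw [zero_pow (by omega)]
  rw [totalDegree_mul_of_isDomain hcn hr, totalDegree_pow' c hc] at hn
  by_contra h0
  have h1 : 1 ≤ c.totalDegree := Nat.one_le_iff_ne_zero.2 h0
  have h2 : n * 1 ≤ n * c.totalDegree := Nat.mul_le_mul_left n h1
  omega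

lemma const_of_eq (a b c d : MvPolynomial τ k) (n : ℕ) (ha0 : a ≠ 0) (hb0 : b ≠ 0)
    (hna : a.totalDegree < n) (hnb : b.totalDegree < n) (hcd : IsRelPrime c d)
    (e1 : c ^ n * b = a * d ^ n) : c = C (coeff 0 c) ∧ d = C (coeff 0 d) := by
  have hcn : c ^ n ∣ a := by
    have h1 : c ^ n ∣ a * d ^ n := ⟨_, e1.symm⟩
    exact (hcd.pow_left.pow_right).dvd_of_dvd_mul_right h1
  have hdn : d ^ n ∣ b := by
    have h1 : d ^ n ∣ c ^ n * b := ⟨a, by rw [e1, mul_comm]⟩
    exact (hcd.symm.pow_left.pow_right).dvd_of_dvd_mul_left h1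
  have hc := totalDegree_eq_zero_of_pow_dvd a c ha0 n hna hcn
  have hd := totalDegree_eq_zero_of_pow_dvd b d hb0 n hnb hdn
  rw [totalDegree_eq_zero_iff_eq_C] at hc hd
  exact ⟨hc, hd⟩

/-- An element of the rational function field which has roots of all orders is a constant. -/
lemma div_const {K : Type} [Field K] [Algebra k K] [Algebra (MvPolynomial τ k) K]
    [IsScalarTower k (MvPolynomial τ k) K] [IsFractionRing (MvPolynomial τ k) K] (x : K)
    (h : ∀ n : ℕ, 0 < n → ∃ y : K, y ^ n = x) : ∃ c : k, algebraMap k K c = x := by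
  by_cases hx : x = 0
  · exact ⟨0, by rw [map_zero, hx]⟩
  obtain ⟨a, b, hb0, hxe⟩ := IsFractionRing.div_surjective (A := MvPolynomial τ k) x
  have hb0' : b ≠ 0 := nonZeroDivisors.ne_zero hb0
  have ha0 : a ≠ 0 := by
    intro h0
    apply hx
    rw [← hxe, h0, map_zero, zero_div]
  obtain ⟨n, hna, hnb, hn0⟩ : ∃ n : ℕ, a.totalDegree < n ∧ b.totalDegree < n ∧ 0 < n :=
    ⟨a.totalDegree + b.totalDegree + 1, by omega, by omega, by omega⟩
  obtain ⟨y, hy⟩ := h n hn0
  obtain ⟨c, d, hcd, hye⟩ := IsFractionRing.exists_reduced_fraction (A := MvPolynomial τ k) y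
  have hd0 : (d : MvPolynomial τ k) ≠ 0 := nonZeroDivisors.coe_ne_zero d
  have hinj := IsFractionRing.injective (MvPolynomial τ k) K
  have hb1 : algebraMap (MvPolynomial τ k) K b ≠ 0 := by
    rwa [Ne, map_eq_zero_iff _ hinj]
  have hd1 : algebraMap (MvPolynomial τ k) K d ≠ 0 := by
    rwa [Ne, map_eq_zero_iff _ hinj]
  rw [IsFractionRing.mk'_eq_div] at hye
  have e1 : c ^ n * b = a * (d : MvPolynomial τ k) ^ n := by
    apply hinj
    rw [map_mul, map_mul, map_pow, map_pow]
    rw [← hye, ← hxe, div_pow] at hy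
    have hd2 := pow_ne_zero n hd1
    rw [div_eq_div_iff hd2 hb1] at hy
    exact hy
  obtain ⟨hc, hd⟩ := const_of_eq a b c d n ha0 hb0' hna hnb hcd e1
  refine ⟨(coeff 0 c / coeff 0 (d : MvPolynomial τ k)) ^ n, ?_⟩
  have hC : ∀ r : k, algebraMap k K r = algebraMap (MvPolynomial τ k) K (C r) :=
    fun r => IsScalarTower.algebraMap_apply k (MvPolynomial τ k) K r
  rw [map_pow, map_div₀, hC, hC, ← hc, ← hd, hye, hy]

end Pool.Agent.V5helper91.QC
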