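import Pool.Agent.V5helper91.QC.Main

/-! The quadric is not isomorphic to projective space: conclusion. -/

set_option autoImplicit false
set_option linter.unusedSectionVars false

open AlgebraicGeometry CategoryTheory TopologicalSpace MvPolynomial
open Pool.Agent.N98.PJ

namespace Pool.Agent.V5helper91.QC

noncomputable section

attribute [local instance] MvPolynomial.gradedAlgebra

section main

variable (k : Type) [Field k] [IsAlgClosed k] (I : Type) [Fintype I] [DecidableEq I] (i₀ : I)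
  (N : ℕ) [hint : IsIntegral (QQ k I i₀).X] (e : (QQ k I i₀).X ≅ PP k N)
variable (ψ : KK k I i₀ →+* LL k N)
  (hψ : χP k N ≫ e.inv = Spec.map (CommRingCat.ofHom ψ) ≫ χQ k I i₀)
variable (D : ℕ) (H : I × Bool → SS k N) (hH : ∀ l, (H l).IsHomogeneous D)
  (hH0 : H (i₀, false) ≠ 0)
  (hxH : ∀ l, ψ ((QQ k I i₀).h l) * algebraMap _ (LL k N) (H (i₀, false)) =
        algebraMap _ (LL k N) (H l))
  (hgcd : ∀ g, (∀ l, g ∣ H l) → IsUnit g)

include hH hxH

omit [IsAlgClosed k] hint in
/-- The image of the last coordinate. -/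
lemma exists_Z : ∃ Z : SS k N, Z.IsHomogeneous D ∧
    ψ (QQ k I i₀).z * algebraMap _ (LL k N) (H (i₀, false)) = algebraMap _ (LL k N) Z := by
  obtain ⟨Z, hZ, hZe⟩ := exists_sqrt (L := LL k N)
    (ψ (QQ k I i₀).z * algebraMap _ (LL k N) (H (i₀, false)))
    (∑ i, H (i, false) * H (i, true)) D (IsHomogeneous.sum _ _ _ fun i _ => (hH _).mul (hH _)) (by
      rw [mul_pow, ← map_pow, (QQ k I i₀).rel, map_sum, map_sum, Finset.sum_mul]
      refine Finset.sum_congr rfl fun i _ => ?_
      rw [map_mul, map_mul, ← hxH (i, false), ← hxH (i, true)]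
      ring)
  exact ⟨Z, hZ, hZe.symm⟩

variable (Z : SS k N) (hZ : Z.IsHomogeneous D)
  (hZe : ψ (QQ k I i₀).z * algebraMap _ (LL k N) (H (i₀, false)) = algebraMap _ (LL k N) Z)

/-- The coordinates. -/
def ww : Option (I × Bool) → SS k N
  | none => Z
  | some l => H l

include hH0 hZe e hψ

lemma ww_indep : LinearIndependent k (ww k I N H Z) := by
  rw [Fintype.linearIndependent_iff]
  intro c hc
  have h1 : ∀ o, ∃ c' : k, algebraMap k (LL k N) (c o) = ψ (algebraMap k (KK k I i₀) c') :=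
    fun o => psi_const' k I i₀ N e ψ hψ (c o)
  choose c' hc' using h1
  have h0 := algS_ne_zero k N _ hH0
  rw [Fintype.sum_option] at hc
  have h2 := congrArg (algebraMap (SS k N) (LL k N)) hc
  have hsm : ∀ (a : k) (f : SS k N), algebraMap (SS k N) (LL k N) (a • f) =
      algebraMap k (LL k N) a * algebraMap (SS k N) (LL k N) f := by
    intro a f
    rw [Algebra.smul_def, map_mul, ← IsScalarTower.algebraMap_apply]
  rw [map_add, map_zero, map_sum, hsm, hc'] at h2
  have h3 : ψ (∑ l, c' (some l) • (QQ k I i₀).h l + c' none • (QQ k I i₀).z) = 0 := by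
    apply (mul_eq_zero.1 (_ : _ * algebraMap _ (LL k N) (H (i₀, false)) = 0)).resolve_right h0
    rw [← h2, map_add, map_sum, add_mul, Finset.sum_mul, add_comm]
    congr 1
    · rw [Algebra.smul_def, map_mul, mul_assoc, hZe]
      rfl
    · refine Finset.sum_congr rfl fun l _ => ?_
      rw [Algebra.smul_def, map_mul, mul_assoc, hxH l, hsm, hc']
      rfl
  rw [map_eq_zero] at h3
  have hk : ∃ t : k, t ≠ 0 ∧ t ≠ 1 := by
    classical
    have hinf : Infinite k := IsAlgClosed.instInfinite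
    obtain ⟨t, ht⟩ := Set.Infinite.exists_notMem_finset (Set.infinite_univ (α := k)) {0, 1}
    refine ⟨t, ?_, ?_⟩
    · rintro rfl
      apply ht.2
      simp
    · rintro rfl
      apply ht.2
      simp
  obtain ⟨h4, h5⟩ := coord_indep k I i₀ hk (fun l => c' (some l)) (c' none) h3
  intro o
  have h6 : c' o = 0 := by
    cases o with
    | none => exact h5
    | some l => exact h4 l
  have h7 := hc' o
  rwa [h6, map_zero, map_zero, map_eq_zero] at h7

lemma M_mem (m : KK k I i₀) (hm : m ∈ (QQ k I i₀).M) :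
    ∃ g ∈ Submodule.span k (Set.range (ww k I N H Z)),
      ψ m * algebraMap _ (LL k N) (H (i₀, false)) = algebraMap _ (LL k N) g := by
  have hm' : m ∈ Submodule.span k (Set.range (QQ k I i₀).h ∪ {(QQ k I i₀).z}) := hm
  induction hm' using Submodule.span_induction with
  | mem x hx =>
    rcases hx with ⟨l, rfl⟩ | hx
    · exact ⟨_, Submodule.subset_span ⟨some l, rfl⟩, hxH l⟩
    · have h1 : x = (QQ k I i₀).z := hx
      subst h1
      exact ⟨_, Submodule.subset_span ⟨none, rfl⟩, hZe⟩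
  | zero => exact ⟨0, Submodule.zero_mem _, by rw [map_zero, map_zero, zero_mul]⟩
  | add x y hx hy ihx ihy =>
    obtain ⟨g1, hg1, e1⟩ := ihx hx
    obtain ⟨g2, hg2, e2⟩ := ihy hy
    exact ⟨g1 + g2, Submodule.add_mem _ hg1 hg2, by rw [map_add, map_add, add_mul, e1, e2]⟩
  | smul r x hx ihx =>
    obtain ⟨g1, hg1, e1⟩ := ihx hx
    obtain ⟨r', hr'⟩ := psi_const k I i₀ N e ψ hψ r
    refine ⟨r' • g1, Submodule.smul_mem _ _ hg1, ?_⟩
    rw [Algebra.smul_def, map_mul, hr', mul_assoc, e1, Algebra.smul_def, map_mul,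
      ← IsScalarTower.algebraMap_apply]

include hgcd

lemma mem_span (hD : 0 < D) (g : SS k N) (hg : g.IsHomogeneous D) :
    g ∈ Submodule.span k (Set.range (ww k I N H Z)) := by
  obtain ⟨b, hb, hbe⟩ := exists_chart_elt k I i₀ N e ψ hψ D H hH hH0 hxH hgcd hD g hg (i₀, false)
  obtain ⟨b', hb', hbe'⟩ := exists_chart_elt k I i₀ N e ψ hψ D H hH hH0 hxH hgcd hD g hg (i₀, true)
  have h0 := algS_ne_zero k N _ hH0
  have h1 : b' = b / (QQ k I i₀).h (i₀, true) := by
    apply ψ.injective
    rw [hbe', map_div₀, hbe, ← hxH (i₀, true)]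
    have h2 : ψ ((QQ k I i₀).h (i₀, true)) ≠ 0 := by
      rw [Ne, map_eq_zero]
      exact (QQ k I i₀).h_ne _
    field_simp
  rw [h1] at hb'
  obtain ⟨g', hg', hge⟩ := M_mem k I i₀ N e ψ hψ D H hH hH0 hxH Z hZe b (mem_M k I i₀ b hb hb')
  have h3 : g = g' := by
    apply IsFractionRing.injective (SS k N) (LL k N)
    rw [← hge, hbe]
    field_simp
  rw [h3]
  exact hg'

end main

/-- The quadric is not isomorphic to projective space. -/
theorem not_iso (k : Type) [Field k] [IsAlgClosed k] (I : Type) [Fintype I] [DecidableEq I]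
    (i₀ : I) (N : ℕ) (hN : Fintype.card (I × Bool) = N + 1) (hN2 : 2 ≤ N) :
    IsEmpty ((QQ k I i₀).X ≅ PP k N) := by
  refine ⟨fun e => ?_⟩
  have hint : IsIntegral (QQ k I i₀).X := (QQ k I i₀).isIntegral (i₀, false)
  obtain ⟨ψ, hψ⟩ := exists_psi k I i₀ N e
  obtain ⟨D, H, hH, hH0, hxH, hgcd⟩ := exists_H k I i₀ N e ψ hψ
  obtain ⟨Z, hZ, hZe⟩ := exists_Z k I i₀ N ψ D H hH hxH
  have hw := ww_indep k I i₀ N e ψ hψ D H hH hH0 hxH Z hZe
  have hwD : ∀ o, (ww k I N H Z o).IsHomogeneous D := by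
    intro o
    cases o with
    | none => exact hZ
    | some l => exact hH l
  have hcard : Fintype.card (Option (I × Bool)) = N + 2 := by
    rw [Fintype.card_option, hN]
  have hD2 := two_le_of_indep (ww k I N H Z) hw D hwD (by omega)
  have h1 := card_le_of_span (ww k I N H Z) D hD2
    (fun g hg => mem_span k I i₀ N e ψ hψ D H hH hH0 hxH hgcd Z hZe (by omega) g hg)
  omega

end

end Pool.Agent.V5helper91.QC
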