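import Pool.Agent.V5helper91.QC.Quad
import Pool.Agent.Helper165.StdSmooth

/-! The line bundle `O(1)` on the quadric and its map to the tangent bundle. -/

set_option autoImplicit false
set_option linter.unusedSectionVars false

open AlgebraicGeometry CategoryTheory TopologicalSpace HomogeneousLocalization
open Pool.Agent.H968R2.Quad Pool.Agent.N98.PJ

namespace Pool.Agent.V5helper91.QC

noncomputable section

section atlas

variable {k F : Type} [Field k] [Field F] [Algebra k F] {X : Scheme.{0}} [IsIntegral X]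
  {p : X ⟶ Spec (CommRingCat.of k)} (A : Atlas (F := F) p)

lemma Atlas.mem_basicOpen (j : A.J) (s : Γ(X, A.U j)) (y : Spec (CommRingCat.of (A.B j))) :
    A.c j y ∈ X.basicOpen s ↔ A.toB j s ∉ (y : PrimeSpectrum (A.B j)).asIdeal := by
  have h1 : (Spec (CommRingCat.of (A.B j))).basicOpen (((A.c j).appLE (A.U j) ⊤ (A.top_le j)).hom s) =
      ⊤ ⊓ (A.c j) ⁻¹ᵁ (X.basicOpen s) := Scheme.basicOpen_appLE (A.c j) ⊤ (A.U j) (A.top_le j) s
  have h2 : A.c j y ∈ X.basicOpen s ↔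
      y ∈ (Spec (CommRingCat.of (A.B j))).basicOpen
        (((A.c j).appLE (A.U j) ⊤ (A.top_le j)).hom s) := by
    rw [h1]
    constructor
    · intro h
      exact ⟨trivial, h⟩
    · intro h
      exact h.2
  rw [h2, basicOpen_eq_of_affine']
  exact Iff.rfl

end atlas

section

variable {k K : Type} [Field k] [Field K] [Algebra k K] {I : Type} [Fintype I]
  (Q : QData k K I) (l₀ : I × Bool)



variable [hint : IsIntegral Q.X]

lemma QData.div_mem (l : I × Bool) {m : K} (hm : m ∈ Q.M) : m / Q.h l ∈ (Q.atlas l₀).B l :=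
  Algebra.subset_adjoin ⟨m, hm, rfl⟩

/-- The section `m / h l` over the chart of `h l`. -/
def QData.sec (l : I × Bool) (m : K) (hm : m ∈ Q.M) : Γ(Q.X, (Q.atlas l₀).U l) :=
  ((Q.atlas l₀).exists_sec l (m / Q.h l) (Q.div_mem l₀ l hm)).choose

lemma QData.ev_sec (l : I × Bool) (m : K) (hm : m ∈ Q.M) :
    ev (Q.atlas l₀).χ ((Q.atlas l₀).U l) ((Q.atlas l₀).hU l) (Q.sec l₀ l m hm) = m / Q.h l :=
  ((Q.atlas l₀).exists_sec l (m / Q.h l) (Q.div_mem l₀ l hm)).choose_spec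

lemma QData.hle {V W : Q.X.Opens} (h : ⊤ ≤ (Q.atlas l₀).χ ⁻¹ᵁ V) (hW : V ≤ W) :
    ⊤ ≤ (Q.atlas l₀).χ ⁻¹ᵁ W := fun _ hx => hW (h hx)

/-- The line bundle `O(1)`, with the frames `h l`. -/
abbrev QData.L : LineBundle Q.X where
  ι := I × Bool
  U l := (Q.atlas l₀).U l
  covers x := (Q.atlas l₀).cov x
  g i j := res inf_le_left (Q.sec l₀ i (Q.h j) (Q.h_mem j))
  self i := by
    apply (Q.atlas l₀).eq_of_ev
    intro h
    rw [ev_res _ ((Q.atlas l₀).hU i) h, Q.ev_sec, div_self (Q.h_ne i), map_one]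
  cocycle i j l W hi hj hl := by
    apply (Q.atlas l₀).eq_of_ev
    intro h
    rw [map_mul, res_res, res_res, res_res, ev_res _ ((Q.atlas l₀).hU i) h,
      ev_res _ ((Q.atlas l₀).hU j) h, ev_res _ ((Q.atlas l₀).hU i) h, Q.ev_sec, Q.ev_sec, Q.ev_sec]
    have h1 := Q.h_ne i
    have h2 := Q.h_ne j
    field_simp

/-- The sections of `O(1)` given by the elements of `M`. -/
def QData.sct (m : K) (hm : m ∈ Q.M) : (Q.L l₀).PowSection 1 where
  s l := Q.sec l₀ l m hm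
  compat i j W hi hj := by
    apply (Q.atlas l₀).eq_of_ev
    intro h
    rw [map_mul, map_pow]
    change _ = ev _ W h (res _ (res inf_le_left (Q.sec l₀ i (Q.h j) (Q.h_mem j)))) ^ 1 * _
    rw [res_res, ev_res _ ((Q.atlas l₀).hU i) h,
      ev_res _ ((Q.atlas l₀).hU j) h, ev_res _ ((Q.atlas l₀).hU i) h, Q.ev_sec, Q.ev_sec, Q.ev_sec]
    have h1 := Q.h_ne i
    have h2 := Q.h_ne j
    field_simp

lemma QData.mem_basicOpen_sec (i l : I × Bool) (x : Q.X) (hx : x ∈ (Q.atlas l₀).U i) :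
    x ∈ Q.X.basicOpen (Q.sec l₀ i (Q.h l) (Q.h_mem l)) ↔ x ∈ (Q.atlas l₀).U l := by
  obtain ⟨y, rfl⟩ := hx
  rw [(Q.atlas l₀).mem_basicOpen i]
  have h1 : (Q.atlas l₀).toB i (Q.sec l₀ i (Q.h l) (Q.h_mem l)) =
      (⟨Q.h l / Q.h i, Algebra.subset_adjoin ⟨Q.h l, Q.h_mem l, rfl⟩⟩ : cring Q.M (Q.h i)) := by
    apply Subtype.ext
    rw [← (Q.atlas l₀).ev_eq_toB, Q.ev_sec]
  rw [h1, Q.U_eq]
  exact (chartB_preimage Q.M (Q.h i) (Q.h_mem i) (Q.h_ne i) (Q.h l) (Q.h_mem l) y).symm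

lemma QData.nonvanishing (l : I × Bool) :
    (Q.sct l₀ (Q.h l) (Q.h_mem l)).nonvanishing = (Q.atlas l₀).U l := by
  ext x
  unfold LineBundle.PowSection.nonvanishing
  rw [SetLike.mem_coe, Opens.mem_iSup]
  constructor
  · rintro ⟨i, hi⟩
    have hxi : x ∈ (Q.atlas l₀).U i := Q.X.basicOpen_le _ hi
    exact (Q.mem_basicOpen_sec l₀ i l x hxi).1 hi
  · intro hx
    exact ⟨l, (Q.mem_basicOpen_sec l₀ l l x hx).2 hx⟩

lemma QData.compact : CompactSpace Q.X := by
  have h1 := Q.isProper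
  have h2 : QuasiCompact Q.p := inferInstance
  exact QuasiCompact.compactSpace_of_compactSpace Q.p

lemma QData.ample : (Q.L l₀).IsAmple := by
  refine ⟨Q.compact, ?_⟩
  intro x
  obtain ⟨l, hl⟩ := (Q.atlas l₀).cov x
  refine ⟨1, Q.sct l₀ (Q.h l) (Q.h_mem l), le_rfl, ?_, ?_⟩
  · rw [Q.nonvanishing]
    exact hl
  · rw [Q.nonvanishing]
    exact (Q.atlas l₀).isAffineOpen_U l

/-- The derivation `h l • δ`. -/
lemma QData.der_mem (δ : Derivation k K K) (hδ : ∀ m ∈ Q.M, ∃ a : k, δ m = algebraMap k K a)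
    (hδh : ∀ l, δ (Q.h l) = 0) (l : I × Bool) (b : K) (hb : b ∈ (Q.atlas l₀).B l) :
    (Q.h l • δ) b ∈ (Q.atlas l₀).B l := by
  have hb' : b ∈ Algebra.adjoin k {y : K | ∃ m ∈ Q.M, y = m / Q.h l} := hb
  induction hb' using Algebra.adjoin_induction with
  | mem x hx =>
    obtain ⟨m, hm, rfl⟩ := hx
    obtain ⟨a, ha⟩ := hδ m hm
    have h1 : (Q.h l • δ) (m / Q.h l) = algebraMap k K a := by
      rw [Derivation.smul_apply, div_eq_mul_inv, Derivation.leibniz, Derivation.leibniz_inv, hδh, ha]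
      simp only [smul_eq_mul, mul_zero, zero_add]
      have := Q.h_ne l
      field_simp
    rw [h1]
    exact Subalgebra.algebraMap_mem _ a
  | algebraMap r =>
    rw [Derivation.map_algebraMap]
    exact Subalgebra.zero_mem _
  | add x y hx hy ihx ihy =>
    rw [map_add]
    exact Subalgebra.add_mem _ (ihx hx) (ihy hy)
  | mul x y hx hy ihx ihy =>
    rw [Derivation.leibniz, smul_eq_mul, smul_eq_mul]
    exact Subalgebra.add_mem _ (Subalgebra.mul_mem _ hx (ihy hy)) (Subalgebra.mul_mem _ hy (ihx hx))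

/-- The map from `O(1)` to the tangent bundle. -/
def QData.toTangent (δ : Derivation k K K) (hδ : ∀ m ∈ Q.M, ∃ a : k, δ m = algebraMap k K a)
    (hδh : ∀ l, δ (Q.h l) = 0) : ToTangent Q.p (Q.L l₀) where
  v l := (Q.atlas l₀).vf l (Q.h l • δ) (Q.der_mem l₀ δ hδ hδh l)
  compat i j V hi hj a := by
    apply (Q.atlas l₀).eq_of_ev
    intro h
    rw [map_mul]
    have e1 : ev (Q.atlas l₀).χ V h (((Q.atlas l₀).vf j (Q.h j • δ)
        (Q.der_mem l₀ δ hδ hδh j)).D V hj a) = (Q.h j • δ) (ev (Q.atlas l₀).χ V h a) :=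
      (Q.atlas l₀).ev_dd j (Q.h j • δ) (Q.der_mem l₀ δ hδ hδh j) V hj h a
    have e2 : ev (Q.atlas l₀).χ V h (((Q.atlas l₀).vf i (Q.h i • δ)
        (Q.der_mem l₀ δ hδ hδh i)).D V hi a) = (Q.h i • δ) (ev (Q.atlas l₀).χ V h a) :=
      (Q.atlas l₀).ev_dd i (Q.h i • δ) (Q.der_mem l₀ δ hδ hδh i) V hi h a
    rw [e1, e2, res_res, ev_res _ ((Q.atlas l₀).hU i) h, Q.ev_sec, Derivation.smul_apply,
      Derivation.smul_apply, smul_eq_mul, smul_eq_mul]
    have h1 := Q.h_ne i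
    field_simp

lemma QData.nowhereZero (δ : Derivation k K K)
    (hδ : ∀ m ∈ Q.M, ∃ a : k, δ m = algebraMap k K a)
    (hδh : ∀ l, δ (Q.h l) = 0) (hδz : δ Q.z = 1) : (Q.toTangent l₀ δ hδ hδh).NowhereZero := by
  intro x i hx
  refine ⟨(Q.atlas l₀).U i, le_rfl, Q.sec l₀ i Q.z Q.z_mem, ?_⟩
  have h1 : ((Q.toTangent l₀ δ hδ hδh).v i).D ((Q.atlas l₀).U i) le_rfl (Q.sec l₀ i Q.z Q.z_mem) =
      1 := by
    apply (Q.atlas l₀).eq_of_ev
    intro h
    have e1 : ev (Q.atlas l₀).χ _ h (((Q.atlas l₀).vf i (Q.h i • δ)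
        (Q.der_mem l₀ δ hδ hδh i)).D _ le_rfl (Q.sec l₀ i Q.z Q.z_mem)) =
          (Q.h i • δ) (ev (Q.atlas l₀).χ _ h (Q.sec l₀ i Q.z Q.z_mem)) :=
      (Q.atlas l₀).ev_dd i (Q.h i • δ) (Q.der_mem l₀ δ hδ hδh i) _ le_rfl h _
    refine e1.trans ?_
    rw [Q.ev_sec, map_one, Derivation.smul_apply, div_eq_mul_inv, Derivation.leibniz,
      Derivation.leibniz_inv, hδh, hδz]
    simp only [smul_eq_mul, mul_zero, zero_add, mul_one]
    exact mul_inv_cancel₀ (Q.h_ne i)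
  rw [h1, Scheme.basicOpen_of_isUnit _ isUnit_one]
  exact hx

include l₀ in
/-- Smoothness. -/
lemma QData.smooth (n : ℕ) (hn : Nat.card (I × Bool) = n + 1)
    (hpol : ∀ l : I × Bool, ∃ v : {l' : I × Bool // l' ≠ l} → cring Q.M (Q.h l),
      Function.Bijective (MvPolynomial.aeval v :
        MvPolynomial {l' : I × Bool // l' ≠ l} k →ₐ[k] cring Q.M (Q.h l))) :
    SmoothOfRelativeDimension n Q.p := by
  classical
  have hcov : ⨆ l, (Q.atlas l₀).U l = ⊤ := by
    rw [eq_top_iff]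
    intro x _
    rw [Opens.mem_iSup]
    exact (Q.atlas l₀).cov x
  refine HasRingHomProperty.of_iSup_eq_top (P := @SmoothOfRelativeDimension n)
    (fun l : I × Bool => ⟨(Q.atlas l₀).U l, (Q.atlas l₀).isAffineOpen_U l⟩) hcov ?_
  intro l
  obtain ⟨v, hv⟩ := hpol l
  have h1 := Pool.Agent.Helper165.isStandardSmooth_of_bijective v hv
  have h2 : Nat.card {l' : I × Bool // l' ≠ l} = n := by
    have h3 : Nat.card {l' : I × Bool // l' ≠ l} + 1 = Nat.card (I × Bool) := by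
      rw [Nat.card_eq_fintype_card, Nat.card_eq_fintype_card, Fintype.card_subtype_compl,
        Fintype.card_subtype_eq]
      have : 0 < Fintype.card (I × Bool) := Fintype.card_pos_iff.2 ⟨l⟩
      omega
    omega
  rw [h2] at h1
  have hres := (HasRingHomProperty.isLocal_ringHomProperty (@SmoothOfRelativeDimension n)).respectsIso
  have h4 : RingHom.Locally (RingHom.IsStandardSmoothOfRelativeDimension n)
      (((Q.atlas l₀).c l ≫ Q.p).appLE ⊤ ⊤ le_top).hom := by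
    have e1 : ((Q.atlas l₀).c l ≫ Q.p).appLE ⊤ ⊤ le_top = ((Q.atlas l₀).c l ≫ Q.p).appTop :=
      Scheme.Hom.appLE_eq_app _
    rw [e1, (Q.atlas l₀).hg l]
    have h3 : SmoothOfRelativeDimension n
        (Spec.map (CommRingCat.ofHom (algebraMap k ((Q.atlas l₀).B l)))) := by
      rw [HasRingHomProperty.Spec_iff (P := @SmoothOfRelativeDimension n)]
      apply RingHom.locally_of
      · exact RingHom.isStandardSmoothOfRelativeDimension_respectsIso
      · rw [CommRingCat.hom_ofHom, RingHom.IsStandardSmoothOfRelativeDimension]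
        have h5 : (algebraMap k ((Q.atlas l₀).B l)).toAlgebra =
          (inferInstance : Algebra k (cring Q.M (Q.h l))) := Algebra.algebra_ext _ _ fun _ => rfl
        rw [h5]
        exact h1
    exact HasRingHomProperty.appTop (@SmoothOfRelativeDimension n) _ h3
  rw [← Scheme.Hom.appLE_comp_appLE ((Q.atlas l₀).c l) Q.p ⊤ ((Q.atlas l₀).U l) ⊤ le_top
    ((Q.atlas l₀).top_le l), CommRingCat.hom_comp] at h4
  have h6 : IsIso (((Q.atlas l₀).c l).appLE ((Q.atlas l₀).U l) ⊤ ((Q.atlas l₀).top_le l)) := by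
    have h7 : IsIso (((Q.atlas l₀).c l).app ((Q.atlas l₀).U l)) :=
      Scheme.Hom.isIso_app ((Q.atlas l₀).c l) _ le_rfl
    have h3 : ((Q.atlas l₀).c l) ⁻¹ᵁ ((Q.atlas l₀).U l) = ⊤ :=
      Scheme.Hom.preimage_opensRange ((Q.atlas l₀).c l)
    have h8 : ((Q.atlas l₀).c l).appLE ((Q.atlas l₀).U l) ⊤ ((Q.atlas l₀).top_le l) =
      ((Q.atlas l₀).c l).app ((Q.atlas l₀).U l) ≫
        (Spec (CommRingCat.of ((Q.atlas l₀).B l))).presheaf.map (eqToHom h3.symm).op := rfl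
    rw [h8]
    infer_instance
  rwa [hres.cancel_right_isIso] at h4

end

end

end Pool.Agent.V5helper91.QC
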