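import Pool.Agent.V5helper91.QC.Concrete
import Pool.Agent.Helper413.Quad.Hom

/-! Global sections of `O(1)` on the quadric are linear. -/

set_option autoImplicit false
set_option linter.unusedSectionVars false

open AlgebraicGeometry CategoryTheory TopologicalSpace MvPolynomial
open Pool.Agent.Helper413.Quad

namespace Pool.Agent.V5helper91.QC

noncomputable section

section gen

variable {k : Type} [Field k] {σ : Type}

lemma comp_eq (q f : MvPolynomial σ k) (hq : q.IsHomogeneous 2) (hq0 : q ≠ 0) (e : ℕ)
    (P : ℕ → MvPolynomial σ k) (hP : ∀ a, (P a).IsHomogeneous a)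
    (h : f * q ^ e = ∑ a ∈ Finset.range (e + 1), P a * q ^ (e + 1 - a)) :
    ∃ c : k, f = homogeneousComponent 0 f + homogeneousComponent 1 f + C c * q := by
  have h1 : ∀ b, homogeneousComponent b f * q ^ e =
      ∑ a ∈ Finset.range (e + 1), if b + a = 2 then P a * q ^ (e + 1 - a) else 0 := by
    intro b
    have h2 := congrArg (fun g => (Helper413.Quad.scal g).coeff (b + 2 * e)) h
    beta_reduce at h2
    rw [map_mul, scal_hom (hq.pow e), ← mul_assoc, Polynomial.coeff_mul_X_pow',
      if_pos (by omega), Nat.add_sub_cancel, Polynomial.coeff_mul_C, coeff_scal, map_sum,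
      Polynomial.finsetSum_coeff] at h2
    rw [h2]
    refine Finset.sum_congr rfl fun a ha => ?_
    have ha' := Finset.mem_range.1 ha
    rw [scal_hom ((hP a).mul (hq.pow (e + 1 - a))), Polynomial.coeff_C_mul_X_pow]
    by_cases hb : b + a = 2
    · rw [if_pos hb, if_pos (by omega)]
    · rw [if_neg hb, if_neg (by omega)]
  have h3 : ∀ b, 3 ≤ b → homogeneousComponent b f = 0 := by
    intro b hb
    have h2 := h1 b
    rw [Finset.sum_eq_zero] at h2
    · exact (mul_eq_zero.1 h2).resolve_right (pow_ne_zero _ hq0)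
    · intro a _
      rw [if_neg (by omega)]
  have h4 : homogeneousComponent 2 f = P 0 * q := by
    have h2 := h1 2
    rw [Finset.sum_eq_single_of_mem 0 (Finset.mem_range.2 (by omega))] at h2
    · rw [if_pos rfl, Nat.sub_zero, pow_succ', ← mul_assoc] at h2
      exact mul_right_cancel₀ (pow_ne_zero _ hq0) h2
    · intro a _ ha
      rw [if_neg (by omega)]
  have h5 : P 0 = C (coeff 0 (P 0)) := by
    have := homogeneousComponent_eq_self (hP 0)
    rw [← homogeneousComponent_zero, this]
  refine ⟨coeff 0 (P 0), ?_⟩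
  rw [← h5, ← h4]
  have h6 : f = ∑ i ∈ Finset.range (f.totalDegree + 1 + 3), homogeneousComponent i f := by
    conv_lhs => rw [← sum_homogeneousComponent f]
    apply Finset.sum_subset
    · intro i hi
      rw [Finset.mem_range] at hi ⊢
      omega
    · intro i _ hi
      rw [Finset.mem_range] at hi
      exact homogeneousComponent_eq_zero _ _ (by omega)
  conv_lhs => rw [h6]
  have h7 : ∑ i ∈ Finset.range 3, homogeneousComponent i f =
      ∑ i ∈ Finset.range (f.totalDegree + 1 + 3), homogeneousComponent i f := by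
    apply Finset.sum_subset
    · intro i hi
      rw [Finset.mem_range] at hi ⊢
      omega
    · intro i _ hi
      rw [Finset.mem_range] at hi
      exact h3 i (by omega)
  rw [← h7, Finset.sum_range_succ, Finset.sum_range_succ, Finset.sum_range_succ,
    Finset.sum_range_zero, zero_add]

lemma aeval_mul_eq {K : Type} [Field K] [Algebra k K] [Algebra (MvPolynomial σ k) K]
    [IsScalarTower k (MvPolynomial σ k) K] (t : K) (P : MvPolynomial σ k) :
    aeval (fun j => algebraMap (MvPolynomial σ k) K (X j) * t) P =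
      ∑ i ∈ Finset.range ((Helper413.Quad.scal P).natDegree + 1),
        algebraMap (MvPolynomial σ k) K (homogeneousComponent i P) * t ^ i := by
  have h1 : (aeval (fun j => algebraMap (MvPolynomial σ k) K (X j) * t) : MvPolynomial σ k →ₐ[k] K) =
      ((Polynomial.aeval t : Polynomial (MvPolynomial σ k) →ₐ[MvPolynomial σ k] K).restrictScalars k).comp
        Helper413.Quad.scal := by
    apply MvPolynomial.algHom_ext
    intro i
    simp [Helper413.Quad.scal]
  rw [h1]
  change Polynomial.aeval t (Helper413.Quad.scal P) = _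
  rw [Polynomial.aeval_eq_sum_range]
  refine Finset.sum_congr rfl fun i _ => ?_
  rw [coeff_scal, Algebra.smul_def]

end gen

section

variable (k : Type) [Field k] (I : Type) [Fintype I] [DecidableEq I] (i₀ : I)

lemma QQ_h_one : (QQ k I i₀).h (i₀, true) = algebraMap (RR k I i₀) (KK k I i₀) (qq k I i₀) := by
  rw [QQ_h, hR_one]

lemma mem_M_of_linear (f : RR k I i₀) (hf : f.IsHomogeneous 1) :
    algebraMap (RR k I i₀) (KK k I i₀) f ∈ (QQ k I i₀).M := by
  have h1 : f ∈ homogeneousSubmodule (Vr I i₀) k 1 := hf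
  rw [homogeneousSubmodule_one_eq_span_X] at h1
  induction h1 using Submodule.span_induction with
  | mem x hx =>
    obtain ⟨j, rfl⟩ := hx
    exact Submodule.subset_span (QQ_X k I i₀ j)
  | zero =>
    rw [map_zero]
    exact Submodule.zero_mem _
  | add x y hx hy ihx ihy =>
    have hx' : x.IsHomogeneous 1 := by
      have : x ∈ homogeneousSubmodule (Vr I i₀) k 1 := by
        rw [homogeneousSubmodule_one_eq_span_X]
        exact hx
      exact this
    have hy' : y.IsHomogeneous 1 := by
      have : y ∈ homogeneousSubmodule (Vr I i₀) k 1 := by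
        rw [homogeneousSubmodule_one_eq_span_X]
        exact hy
      exact this
    rw [map_add]
    exact Submodule.add_mem _ (ihx hx') (ihy hy')
  | smul r x hx ihx =>
    have hx' : x.IsHomogeneous 1 := by
      have : x ∈ homogeneousSubmodule (Vr I i₀) k 1 := by
        rw [homogeneousSubmodule_one_eq_span_X]
        exact hx
      exact this
    have h2 : algebraMap (RR k I i₀) (KK k I i₀) (r • x) = r • algebraMap (RR k I i₀) (KK k I i₀) x := by
      rw [Algebra.smul_def, Algebra.smul_def, map_mul, ← IsScalarTower.algebraMap_apply]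
    rw [h2]
    exact Submodule.smul_mem _ _ (ihx hx')

/-- The sections over two opposite charts. -/
lemma mem_M (s : KK k I i₀) (h1 : s ∈ cring (QQ k I i₀).M ((QQ k I i₀).h (i₀, false)))
    (h2 : s / (QQ k I i₀).h (i₀, true) ∈ cring (QQ k I i₀).M ((QQ k I i₀).h (i₀, true))) :
    s ∈ (QQ k I i₀).M := by
  set q' := (QQ k I i₀).h (i₀, true) with hq'
  have hq'0 : q' ≠ 0 := (QQ k I i₀).h_ne _
  -- the first chart
  have e1 : ∃ f : RR k I i₀, algebraMap (RR k I i₀) (KK k I i₀) f = s := by
    rw [← QData.adjoin_v] at h1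
    have h3 : Algebra.adjoin k (Set.range ((QQ k I i₀).v (i₀, false))) ≤
        (IsScalarTower.toAlgHom k (RR k I i₀) (KK k I i₀)).range := by
      apply Algebra.adjoin_le
      rintro _ ⟨l', rfl⟩
      unfold QData.v
      rw [QQ_h_zero, div_one, div_one]
      split_ifs
      · exact ⟨_, rfl⟩
      · exact ⟨_, rfl⟩
    exact h3 h1
  obtain ⟨f, hf⟩ := e1
  -- the second chart
  have e2 : ∃ P : RR k I i₀, aeval (fun j => algebraMap (RR k I i₀) (KK k I i₀) (X j) * q'⁻¹) P =
      s / q' := by
    rw [← QData.adjoin_v] at h2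
    have h3 : Algebra.adjoin k (Set.range ((QQ k I i₀).v (i₀, true))) ≤
        (aeval (fun j => algebraMap (RR k I i₀) (KK k I i₀) (X j) * q'⁻¹) :
          RR k I i₀ →ₐ[k] KK k I i₀).range := by
      have hX : ∀ j : Vr I i₀, algebraMap (RR k I i₀) (KK k I i₀) (X j) * q'⁻¹ ∈
          (aeval (fun j => algebraMap (RR k I i₀) (KK k I i₀) (X j) * q'⁻¹) :
          RR k I i₀ →ₐ[k] KK k I i₀).range := by
        intro j
        exact ⟨X j, aeval_X _ j⟩
      have hz : (QQ k I i₀).z / q' ∈ (aeval (fun j => algebraMap (RR k I i₀) (KK k I i₀) (X j) * q'⁻¹) :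
          RR k I i₀ →ₐ[k] KK k I i₀).range := by
        rw [QQ_z, vr_of_ne k I i₀ (i₀, true) (by simp), div_eq_mul_inv]
        exact hX _
      have hl : ∀ l, l ≠ (i₀, false) → l ≠ (i₀, true) → (QQ k I i₀).h l / q' ∈
          (aeval (fun j => algebraMap (RR k I i₀) (KK k I i₀) (X j) * q'⁻¹) :
          RR k I i₀ →ₐ[k] KK k I i₀).range := by
        intro l h4 h5
        rw [QQ_h, div_eq_mul_inv]
        unfold hR
        rw [if_neg h4, if_neg h5, vr_of_ne k I i₀ l h4]
        exact hX _
      apply Algebra.adjoin_le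
      rintro _ ⟨⟨l', hl'⟩, rfl⟩
      unfold QData.v
      by_cases h4 : l' = (i₀, false)
      · subst h4
        rw [if_pos (by rfl)]
        exact hz
      · rw [if_neg]
        · exact hl l' h4 hl'
        · intro h5
          exact h4 h5
    exact h3 h2
  obtain ⟨P, hP⟩ := e2
  rw [aeval_mul_eq] at hP
  have e3 : f * qq k I i₀ ^ (Helper413.Quad.scal P).natDegree =
      ∑ a ∈ Finset.range ((Helper413.Quad.scal P).natDegree + 1),
        homogeneousComponent a P * qq k I i₀ ^ ((Helper413.Quad.scal P).natDegree + 1 - a) := by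
    apply IsFractionRing.injective (RR k I i₀) (KK k I i₀)
    rw [map_mul, map_pow, map_sum, hf, ← QQ_h_one, ← hq']
    have h6 : s * q' ^ (Helper413.Quad.scal P).natDegree = (s / q') * q' ^ ((Helper413.Quad.scal P).natDegree + 1) := by
      rw [pow_succ]
      field_simp
    rw [h6, ← hP, Finset.sum_mul]
    refine Finset.sum_congr rfl fun a ha => ?_
    have ha' := Finset.mem_range.1 ha
    rw [map_mul, map_pow, ← QQ_h_one, ← hq', mul_assoc]
    congr 1
    have h7 : (Helper413.Quad.scal P).natDegree + 1 = a + ((Helper413.Quad.scal P).natDegree + 1 - a) := by omega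
    conv_lhs => rw [h7]
    rw [pow_add, ← mul_assoc, ← mul_pow, inv_mul_cancel₀ hq'0, one_pow, one_mul]
  obtain ⟨c, hc⟩ := comp_eq (qq k I i₀) f (qq_isHomogeneous k I i₀) (qq_ne_zero k I i₀) _
    (fun a => homogeneousComponent a P) (fun a => homogeneousComponent_isHomogeneous a P) e3
  rw [← hf, hc, map_add, map_add, map_mul, ← QQ_h_one]
  have hC : ∀ c : k, algebraMap (RR k I i₀) (KK k I i₀) (C c) = algebraMap k (KK k I i₀) c :=
    fun c => (IsScalarTower.algebraMap_apply k (RR k I i₀) (KK k I i₀) c).symm
  refine Submodule.add_mem _ (Submodule.add_mem _ ?_ ?_) ?_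
  · rw [homogeneousComponent_zero, hC, Algebra.algebraMap_eq_smul_one, ← QQ_h_zero k I i₀]
    exact Submodule.smul_mem _ _ ((QQ k I i₀).h_mem _)
  · exact mem_M_of_linear k I i₀ _ (homogeneousComponent_isHomogeneous 1 f)
  · rw [hC, ← Algebra.smul_def]
    exact Submodule.smul_mem _ _ ((QQ k I i₀).h_mem _)

end

end

end Pool.Agent.V5helper91.QC
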