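import Pool.Agent.V5helper91.QC.NotIso

/-! The quadric is not isomorphic to projective space: the main argument. -/

set_option autoImplicit false
set_option linter.unusedSectionVars false

open AlgebraicGeometry CategoryTheory TopologicalSpace MvPolynomial
open Pool.Agent.N98.PJ

namespace Pool.Agent.V5helper91.QC

noncomputable section

attribute [local instance] MvPolynomial.gradedAlgebra

/-- The coordinate ring of projective space. -/
abbrev SS (k : Type) [Field k] (N : ℕ) : Type := MvPolynomial (Fin (N + 1)) k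

/-- Its field of fractions. -/
abbrev LL (k : Type) [Field k] (N : ℕ) : Type := FractionRing (SS k N)

section pside

variable (k : Type) [Field k] (N : ℕ)

lemma algS_ne_zero (f : SS k N) (hf : f ≠ 0) : algebraMap (SS k N) (LL k N) f ≠ 0 := by
  rwa [Ne, map_eq_zero_iff _ (IsFractionRing.injective (SS k N) (LL k N))]

/-- The generic point of projective space. -/
def χP : Spec (CommRingCat.of (LL k N)) ⟶ PP k N :=
  pt (homogeneousSubmodule (Fin (N + 1)) k) (algebraMap (SS k N) (LL k N))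
    (f := (X 0 : SS k N)) (m := 1) (isHomogeneous_X k 0) one_pos (algS_ne_zero k N _ (X_ne_zero 0))

lemma χP_generic (V : (PP k N).Opens) (hV : V ≠ ⊥) : ⊤ ≤ (χP k N) ⁻¹ᵁ V :=
  pt_generic _ _ _ _ _ (IsFractionRing.injective (SS k N) (LL k N)) V hV

lemma χP_frac (V : (PP k N).Opens) (y : PP k N) (hy : y ∈ V) (hV : ⊤ ≤ (χP k N) ⁻¹ᵁ V)
    (s : Γ(PP k N, V)) : ∃ (n : ℕ) (a f : SS k N), a.IsHomogeneous n ∧ f.IsHomogeneous n ∧
      y ∈ Proj.basicOpen (homogeneousSubmodule (Fin (N + 1)) k) f ∧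
      ev (χP k N) V hV s = algebraMap (SS k N) (LL k N) a / algebraMap (SS k N) (LL k N) f :=
  exists_frac_of_sec _ _ _ _ _ (IsFractionRing.injective (SS k N) (LL k N)) V y hy hV s

lemma χP_sec (f a : SS k N) (m : ℕ) (hf : f.IsHomogeneous m) (ha : a.IsHomogeneous m)
    (hm : 0 < m) (hf0 : f ≠ 0) :
    ∃ (hV : ⊤ ≤ (χP k N) ⁻¹ᵁ (Proj.basicOpen (homogeneousSubmodule (Fin (N + 1)) k) f))
      (s : Γ(PP k N, Proj.basicOpen (homogeneousSubmodule (Fin (N + 1)) k) f)),
      ev (χP k N) _ hV s = algebraMap (SS k N) (LL k N) a / algebraMap (SS k N) (LL k N) f :=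
  ⟨pt_le' _ _ _ _ _ hf hm (algS_ne_zero k N f hf0),
    exists_sec_basicOpen _ _ _ _ _ hf hm (algS_ne_zero k N f hf0) a ha⟩

lemma mem_prod_basicOpen {J : Type} [Fintype J] (f : J → SS k N) (y : PP k N)
    (h : ∀ j, y ∈ Proj.basicOpen (homogeneousSubmodule (Fin (N + 1)) k) (f j)) :
    y ∈ Proj.basicOpen (homogeneousSubmodule (Fin (N + 1)) k) (∏ j, f j) := by
  classical
  have key : ∀ s : Finset J, y ∈ Proj.basicOpen (homogeneousSubmodule (Fin (N + 1)) k)
      (∏ j ∈ s, f j) := by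
    intro s
    induction s using Finset.induction_on with
    | empty =>
      rw [Finset.prod_empty, Proj.basicOpen_one]
      trivial
    | insert j s hj ih =>
      rw [Finset.prod_insert hj, Proj.basicOpen_mul]
      exact ⟨h j, ih⟩
  exact key _

end pside

section main

variable (k : Type) [Field k] [IsAlgClosed k] (I : Type) [Fintype I] [DecidableEq I] (i₀ : I)
  (N : ℕ) [hint : IsIntegral (QQ k I i₀).X] (e : (QQ k I i₀).X ≅ PP k N)

/-- The generic point of the quadric. -/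
abbrev χQ : Spec (CommRingCat.of (KK k I i₀)) ⟶ (QQ k I i₀).X :=
  ((QQ k I i₀).atlas (i₀, false)).χ

lemma exists_psi : ∃ ψ : KK k I i₀ →+* LL k N,
    χP k N ≫ e.inv = Spec.map (CommRingCat.ofHom ψ) ≫ χQ k I i₀ := by
  apply ((QQ k I i₀).atlas (i₀, false)).exists_hom (i₀, false) (QQ_fraction k I i₀)
  intro V hV
  have h1 : e.inv ⁻¹ᵁ V ≠ ⊥ := by
    intro h0
    apply hV
    ext x
    constructor
    · intro hx
      have h2 : e.hom x ∈ e.inv ⁻¹ᵁ V := by
        change (e.hom ≫ e.inv) x ∈ V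
        rw [Iso.hom_inv_id]
        exact hx
      rw [h0] at h2
      exact h2.elim
    · intro hx
      exact hx.elim
  exact χP_generic k N _ h1

variable (ψ : KK k I i₀ →+* LL k N)
  (hψ : χP k N ≫ e.inv = Spec.map (CommRingCat.ofHom ψ) ≫ χQ k I i₀)

include e hψ

/-- Constants come from constants. -/
lemma psi_const' (c : k) : ∃ c' : k, algebraMap k (LL k N) c =
    ψ (algebraMap k (KK k I i₀) c') := by
  have h1 : ∀ c : k, ∃ b : KK k I i₀, ψ b = algebraMap k (LL k N) c := by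
    intro c
    obtain ⟨hV, s, hs⟩ := χP_sec k N (X 0) (C c * X 0) 1 (isHomogeneous_X k 0)
      ((isHomogeneous_X k 0).C_mul c) one_pos (X_ne_zero 0)
    refine ⟨_, (ev_push (χQ k I i₀) (χP k N) ψ e hψ hV s).trans (hs.trans ?_)⟩
    rw [map_mul, mul_div_assoc, div_self (algS_ne_zero k N _ (X_ne_zero 0)), mul_one]
    exact (IsScalarTower.algebraMap_apply k (SS k N) (LL k N) c).symm
  obtain ⟨b, hb⟩ := h1 c
  obtain ⟨c', hc'⟩ := div_const (k := k) (τ := Vr I i₀) b (by
    intro n hn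
    obtain ⟨d, hd⟩ := IsAlgClosed.exists_pow_nat_eq c hn
    obtain ⟨y, hy⟩ := h1 d
    refine ⟨y, ?_⟩
    apply ψ.injective
    rw [map_pow, hy, hb, ← map_pow, hd])
  refine ⟨c', ?_⟩
  rw [hc', hb]

/-- Constants go to constants. -/
lemma psi_const (c : k) : ∃ c' : k, ψ (algebraMap k (KK k I i₀) c) = algebraMap k (LL k N) c' := by
  obtain ⟨c', hc'⟩ := div_const (k := k) (τ := Fin (N + 1)) (ψ (algebraMap k (KK k I i₀) c)) (by
    intro n hn
    obtain ⟨d, hd⟩ := IsAlgClosed.exists_pow_nat_eq c hn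
    exact ⟨ψ (algebraMap k (KK k I i₀) d), by rw [← map_pow, ← map_pow, hd]⟩)
  exact ⟨c', hc'.symm⟩

lemma reg_frac (y : PP k N) (b : KK k I i₀) (h : Reg (χQ k I i₀) (e.inv y) b) :
    ∃ (n : ℕ) (a f : SS k N), a.IsHomogeneous n ∧ f.IsHomogeneous n ∧
      y ∈ Proj.basicOpen (homogeneousSubmodule (Fin (N + 1)) k) f ∧
      ψ b = algebraMap (SS k N) (LL k N) a / algebraMap (SS k N) (LL k N) f := by
  obtain ⟨V, hV, s, hy, hs⟩ := Reg.pull (χQ k I i₀) (χP k N) ψ e hψ h
  obtain ⟨n, a, f, ha, hf, hyf, h1⟩ := χP_frac k N V y hy hV s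
  exact ⟨n, a, f, ha, hf, hyf, by rw [← hs, h1]⟩


/-- The images of the homogeneous coordinates. -/
lemma exists_H : ∃ (D : ℕ) (H : I × Bool → SS k N),
      (∀ l, (H l).IsHomogeneous D) ∧ H (i₀, false) ≠ 0 ∧
      (∀ l, ψ ((QQ k I i₀).h l) * algebraMap _ (LL k N) (H (i₀, false)) =
        algebraMap _ (LL k N) (H l)) ∧
      ∀ g, (∀ l, g ∣ H l) → IsUnit g := by
  apply exists_coord (L := LL k N) (fun l => ψ ((QQ k I i₀).h l)) (i₀, false)
  · rw [QQ_h_zero, map_one]
  · obtain ⟨x₀⟩ : Nonempty (Spec (CommRingCat.of (KK k I i₀))) := inferInstance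
    have hx := ((QQ k I i₀).atlas (i₀, false)).hU (i₀, false) (show x₀ ∈ ⊤ from trivial)
    set x := (χQ k I i₀) x₀ with hxdef
    have hx' : x ∈ ((QQ k I i₀).atlas (i₀, false)).U (i₀, false) := hx
    intro l
    have h1 : Reg (χQ k I i₀) (e.inv (e.hom x)) ((QQ k I i₀).h l) := by
      have h2 : e.inv (e.hom x) = x := by
        change (e.hom ≫ e.inv) x = x
        rw [Iso.hom_inv_id]
        rfl
      rw [h2]
      refine ⟨_, ((QQ k I i₀).atlas (i₀, false)).hU (i₀, false),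
        (QQ k I i₀).sec (i₀, false) (i₀, false) ((QQ k I i₀).h l) ((QQ k I i₀).h_mem l), hx', ?_⟩
      rw [(QQ k I i₀).ev_sec, QQ_h_zero, div_one]
    obtain ⟨n, a, f, ha, hf, hyf, h2⟩ := reg_frac k I i₀ N e ψ hψ _ _ h1
    refine ⟨n, a, f, ha, hf, ?_, h2⟩
    rintro rfl
    rw [Proj.basicOpen_zero] at hyf
    exact hyf

variable (D : ℕ) (H : I × Bool → SS k N) (hH : ∀ l, (H l).IsHomogeneous D)
  (hH0 : H (i₀, false) ≠ 0)
  (hxH : ∀ l, ψ ((QQ k I i₀).h l) * algebraMap _ (LL k N) (H (i₀, false)) =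
        algebraMap _ (LL k N) (H l))
  (hgcd : ∀ g, (∀ l, g ∣ H l) → IsUnit g)

include hH0 hxH

omit e hψ hint [IsAlgClosed k] in
lemma H_ne (l : I × Bool) : H l ≠ 0 := by
  intro h0
  have h1 := hxH l
  rw [h0, map_zero] at h1
  rcases mul_eq_zero.1 h1 with h2 | h2
  · exact (QQ k I i₀).h_ne l (by rwa [map_eq_zero] at h2)
  · exact algS_ne_zero k N _ hH0 h2

omit e hψ hint [IsAlgClosed k] in
lemma psi_div (l l' : I × Bool) : ψ ((QQ k I i₀).h l' / (QQ k I i₀).h l) =
    algebraMap _ (LL k N) (H l') / algebraMap _ (LL k N) (H l) := by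
  rw [map_div₀, ← hxH l, ← hxH l']
  have h1 := algS_ne_zero k N _ hH0
  have h2 : ψ ((QQ k I i₀).h l) ≠ 0 := by
    rw [Ne, map_eq_zero]
    exact (QQ k I i₀).h_ne l
  field_simp

include hgcd

/-- The chart of `h l` lies in `D₊(H l)`. -/
lemma U_sub (l : I × Bool) (y : PP k N)
    (hy : e.inv y ∈ ((QQ k I i₀).atlas (i₀, false)).U l) :
    y ∈ Proj.basicOpen (homogeneousSubmodule (Fin (N + 1)) k) (H l) := by
  have h1 : ∀ l', ∃ (a f : SS k N), y ∈ Proj.basicOpen (homogeneousSubmodule (Fin (N + 1)) k) f ∧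
      ψ ((QQ k I i₀).h l' / (QQ k I i₀).h l) =
        algebraMap (SS k N) (LL k N) a / algebraMap (SS k N) (LL k N) f := by
    intro l'
    have h2 : Reg (χQ k I i₀) (e.inv y) ((QQ k I i₀).h l' / (QQ k I i₀).h l) := by
      refine ⟨_, ((QQ k I i₀).atlas (i₀, false)).hU l,
        (QQ k I i₀).sec (i₀, false) l ((QQ k I i₀).h l') ((QQ k I i₀).h_mem l'), hy, ?_⟩
      rw [(QQ k I i₀).ev_sec]
    obtain ⟨n, a, f, ha, hf, hyf, h3⟩ := reg_frac k I i₀ N e ψ hψ _ _ h2
    exact ⟨a, f, hyf, h3⟩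
  choose a f hyf haf using h1
  have hf0 : ∀ l', f l' ≠ 0 := by
    intro l' h0
    have := hyf l'
    rw [h0, Proj.basicOpen_zero] at this
    exact this
  have h3 := mem_prod_basicOpen k N f y hyf
  have h4 : H l ∣ ∏ l', f l' := by
    apply dvd_of_dvd_mul H hgcd ⟨_, hH0⟩
    intro l'
    have h5 : H l' * f l' = H l * a l' := by
      apply IsFractionRing.injective (SS k N) (LL k N)
      have h6 := haf l'
      rw [psi_div k I i₀ N ψ H hH0 hxH l l', div_eq_div_iff (algS_ne_zero k N _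
        (H_ne k I i₀ N ψ H hH0 hxH l)) (algS_ne_zero k N _ (hf0 l'))] at h6
      rw [map_mul, map_mul, h6, mul_comm]
    rw [← Finset.mul_prod_erase _ _ (Finset.mem_univ l'), ← mul_assoc, h5, mul_assoc]
    exact dvd_mul_right _ _
  exact Proj.basicOpen_mono _ _ _ h4 h3

include hH

/-- Polynomials of degree `D` come from regular functions on the charts. -/
lemma exists_chart_elt (hD : 0 < D) (g : SS k N) (hg : g.IsHomogeneous D) (l : I × Bool) :
    ∃ b ∈ cring (QQ k I i₀).M ((QQ k I i₀).h l),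
      ψ b = algebraMap _ (LL k N) g / algebraMap _ (LL k N) (H l) := by
  obtain ⟨hV, s, hs⟩ := χP_sec k N (H l) g D (hH l) hg hD (H_ne k I i₀ N ψ H hH0 hxH l)
  have h1 : ((QQ k I i₀).atlas (i₀, false)).U l ≤
      e.hom ⁻¹ᵁ (Proj.basicOpen (homogeneousSubmodule (Fin (N + 1)) k) (H l)) := by
    intro x hx
    change e.hom x ∈ Proj.basicOpen (homogeneousSubmodule (Fin (N + 1)) k) (H l)
    apply U_sub k I i₀ N e ψ hψ H hH0 hxH hgcd l
    have h2 : e.inv (e.hom x) = x := by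
      change (e.hom ≫ e.inv) x = x
      rw [Iso.hom_inv_id]
      rfl
    rw [h2]
    exact hx
  refine ⟨_, ((QQ k I i₀).atlas (i₀, false)).ev_mem l (res h1 ((e.hom.app _).hom s)), ?_⟩
  rw [ev_res _ (le_of_le' (χQ k I i₀) (χP k N) ψ e hψ hV)]
  exact (ev_push (χQ k I i₀) (χP k N) ψ e hψ hV s).trans hs

end main

end

end Pool.Agent.V5helper91.QC
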