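import Pool.Agent.V5helper91.QC.Atlas

/-! Vector fields on charts, given by derivations of the function field. -/

set_option autoImplicit false
set_option linter.unusedSectionVars false

open AlgebraicGeometry CategoryTheory TopologicalSpace

namespace Pool.Agent.V5helper91.QC

noncomputable section

variable {k F : Type} [Field k] [Field F] [Algebra k F] {X : Scheme.{0}} [IsIntegral X]
  {p : X ⟶ Spec (CommRingCat.of k)} (A : Atlas (F := F) p)

lemma Atlas.nonempty_iff (V : X.Opens) : ⊤ ≤ A.χ ⁻¹ᵁ V ↔ V ≠ ⊥ := by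
  refine ⟨?_, A.hgen V⟩
  rintro h rfl
  obtain ⟨x⟩ : Nonempty (Spec (CommRingCat.of F)) := inferInstance
  exact h (show x ∈ (⊤ : (Spec (CommRingCat.of F)).Opens) from trivial)

lemma Atlas.χp (j : A.J) : A.χ ≫ p = Spec.map (CommRingCat.ofHom (algebraMap k F)) := by
  rw [← A.hχ j, Category.assoc, A.hg j, ← Spec.map_comp, ← CommRingCat.ofHom_comp]
  rfl

lemma ev_scal_aux (χ : Spec (CommRingCat.of F) ⟶ X) (V : X.Opens) (h : ⊤ ≤ χ ⁻¹ᵁ V) (a : k)
    (q : Spec (CommRingCat.of F) ⟶ Spec (CommRingCat.of k)) (hq : χ ≫ p = q) :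
    ev χ V h (scal p V a) = (Scheme.ΓSpecIso (CommRingCat.of F)).hom.hom
      ((q.appLE ⊤ ⊤ le_top).hom ((Scheme.ΓSpecIso (CommRingCat.of k)).inv.hom a)) := by
  subst hq
  unfold ev scal
  rw [RingHom.comp_apply, RingHom.comp_apply,
    ← Scheme.Hom.appLE_comp_appLE χ p ⊤ V ⊤ le_top h, CommRingCat.hom_comp, RingHom.comp_apply]

lemma Atlas.ev_scal (j : A.J) (V : X.Opens) (h : ⊤ ≤ A.χ ⁻¹ᵁ V) (a : k) :
    ev A.χ V h (scal p V a) = algebraMap k F a := by
  rw [ev_scal_aux A.χ V h a _ (A.χp j)]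
  have h3 : (Spec.map (CommRingCat.ofHom (algebraMap k F))).appLE ⊤ ⊤ le_top =
      (Spec.map (CommRingCat.ofHom (algebraMap k F))).appTop := Scheme.Hom.appLE_eq_app _
  rw [h3]
  have h2 := congrArg (fun f => f.hom ((Scheme.ΓSpecIso (CommRingCat.of k)).inv.hom a))
      (Scheme.ΓSpecIso_naturality (CommRingCat.ofHom (algebraMap k F)))
  simp only [CommRingCat.hom_comp, RingHom.comp_apply] at h2
  refine h2.trans ?_
  have h4 := congrArg (fun f => f.hom a) (Scheme.ΓSpecIso (CommRingCat.of k)).inv_hom_id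
  simp only [CommRingCat.hom_comp, RingHom.comp_apply] at h4
  rw [h4]
  rfl

lemma Atlas.exists_der (j : A.J) (D : Derivation k F F) (hD : ∀ b ∈ A.B j, D b ∈ A.B j)
    (V : X.Opens) (hV : V ≤ A.U j) (h : ⊤ ≤ A.χ ⁻¹ᵁ V) (s : Γ(X, V)) :
    ∃ t : Γ(X, V), ev A.χ V h t = D (ev A.χ V h s) := by
  apply A.exists_glue V _ _ h
  intro x hx
  obtain ⟨f, a, n, hxf, hf, ha⟩ := A.exists_frac j V hV x hx s
  have hne : ⊤ ≤ A.χ ⁻¹ᵁ (X.basicOpen f) := A.hgen _ (by
    intro h0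
    rw [h0] at hxf
    exact hxf)
  have hfu : IsUnit (res (X.basicOpen_le f) f : Γ(X, X.basicOpen f)) :=
    RingedSpace.isUnit_res_basicOpen _ f
  obtain ⟨u, hu⟩ := hfu
  have hf0 : ev A.χ _ (A.hU j) f ≠ 0 := (ev_ne_zero_iff A.χ (A.hU j) f).2 hne
  have e1 : ev A.χ V h s * ev A.χ _ (A.hU j) f ^ n = ev A.χ _ (A.hU j) a := by
    have := congrArg (ev A.χ _ hne) ha
    rwa [map_mul, map_pow, ev_res A.χ h hne, ev_res A.χ (A.hU j) hne,
      ev_res A.χ (A.hU j) hne] at this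
  obtain ⟨a', ha'⟩ := A.exists_sec j (D (ev A.χ _ (A.hU j) a)) (hD _ (A.ev_mem j a))
  obtain ⟨f', hf'⟩ := A.exists_sec j (D (ev A.χ _ (A.hU j) f ^ n))
    (hD _ (Subalgebra.pow_mem _ (A.ev_mem j f) n))
  -- `D s = (D a * f ^ n - a * D (f ^ n)) / f ^ (2 n)`
  refine ⟨X.basicOpen f, hne,
    (res (X.basicOpen_le f) a' * res (X.basicOpen_le f) f ^ n -
      res (X.basicOpen_le f) a * res (X.basicOpen_le f) f') *
      ((u⁻¹ : (Γ(X, X.basicOpen f))ˣ) : Γ(X, X.basicOpen f)) ^ (2 * n), hxf, hf, ?_⟩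
  have hu' : ev A.χ _ hne ((u⁻¹ : (Γ(X, X.basicOpen f))ˣ) : Γ(X, X.basicOpen f)) =
      (ev A.χ _ (A.hU j) f)⁻¹ := by
    apply eq_inv_of_mul_eq_one_left
    rw [← ev_res A.χ (A.hU j) hne (X.basicOpen_le f), ← map_mul, ← hu,
      Units.inv_mul, map_one]
  rw [map_mul, map_sub, map_mul, map_mul, map_pow, map_pow, ev_res A.χ (A.hU j) hne,
    ev_res A.χ (A.hU j) hne, ev_res A.χ (A.hU j) hne, ev_res A.χ (A.hU j) hne, hu', ha', hf']
  have hs : ev A.χ V h s = ev A.χ _ (A.hU j) a / ev A.χ _ (A.hU j) f ^ n := by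
    rw [← e1]
    field_simp
  have e2 := congrArg D e1
  rw [Derivation.leibniz, smul_eq_mul, smul_eq_mul] at e2
  rw [← e2, ← e1]
  have h5 : (ev A.χ _ (A.hU j) f)⁻¹ ^ (2 * n) = ((ev A.χ _ (A.hU j) f ^ n) ^ 2)⁻¹ := by
    rw [inv_pow, ← pow_mul, mul_comm n 2]
  have h6 : ev A.χ _ (A.hU j) f ^ n ≠ 0 := pow_ne_zero _ hf0
  rw [h5]
  field_simp
  ring

/-- The action on the sections over an open subset of a chart of a derivation of the function
field. -/
def Atlas.dd (j : A.J) (D : Derivation k F F) (hD : ∀ b ∈ A.B j, D b ∈ A.B j) (V : X.Opens)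
    (hV : V ≤ A.U j) (s : Γ(X, V)) : Γ(X, V) := by
  classical
  exact if h : ⊤ ≤ A.χ ⁻¹ᵁ V then (A.exists_der j D hD V hV h s).choose else 0

lemma Atlas.ev_dd (j : A.J) (D : Derivation k F F) (hD : ∀ b ∈ A.B j, D b ∈ A.B j)
    (V : X.Opens) (hV : V ≤ A.U j) (h : ⊤ ≤ A.χ ⁻¹ᵁ V) (s : Γ(X, V)) :
    ev A.χ V h (A.dd j D hD V hV s) = D (ev A.χ V h s) := by
  classical
  unfold Atlas.dd
  rw [dif_pos h]
  exact (A.exists_der j D hD V hV h s).choose_spec

lemma Atlas.eq_of_ev (V : X.Opens) (s t : Γ(X, V))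
    (h : ∀ hV : ⊤ ≤ A.χ ⁻¹ᵁ V, ev A.χ V hV s = ev A.χ V hV t) : s = t := by
  by_cases hV : ⊤ ≤ A.χ ⁻¹ᵁ V
  · exact A.ev_injective V hV (h hV)
  · have hW0 : V = ⊥ := by
      by_contra h0
      exact hV (A.hgen V h0)
    subst hW0
    exact Subsingleton.elim _ _

/-- The vector field on a chart given by a derivation of the function field. -/
def Atlas.vf (j : A.J) (D : Derivation k F F) (hD : ∀ b ∈ A.B j, D b ∈ A.B j) :
    VectorField p (A.U j) where
  D := A.dd j D hD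
  add V hV a b := by
    apply A.eq_of_ev
    intro h
    rw [map_add, A.ev_dd j D hD V hV h, A.ev_dd j D hD V hV h, A.ev_dd j D hD V hV h, map_add,
      map_add]
  leibniz V hV a b := by
    apply A.eq_of_ev
    intro h
    rw [map_add, map_mul, map_mul, A.ev_dd j D hD V hV h, A.ev_dd j D hD V hV h,
      A.ev_dd j D hD V hV h, map_mul, Derivation.leibniz, smul_eq_mul, smul_eq_mul]
  const V hV a := by
    apply A.eq_of_ev
    intro h
    rw [A.ev_dd j D hD V hV h, A.ev_scal j, Derivation.map_algebraMap, map_zero]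
  compat V W hV h a := by
    apply A.eq_of_ev
    intro hW
    have hV' : ⊤ ≤ A.χ ⁻¹ᵁ V := fun x hx => h (hW hx)
    rw [ev_res A.χ hV' hW, A.ev_dd j D hD V hV hV', A.ev_dd j D hD W _ hW, ev_res A.χ hV' hW]

end

end Pool.Agent.V5helper91.QC
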