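import Pool.Agent.H968R2.Quad.Model
import Pool.Agent.N98.PJ.Pt
import Pool.Agent.V5helper91.QC.Vec

/-! The projective model `Proj ⨁ Mⁿ` with its charts. -/

set_option autoImplicit false
set_option linter.unusedSectionVars false

open AlgebraicGeometry CategoryTheory TopologicalSpace HomogeneousLocalization
open Pool.Agent.H968R2.Quad Pool.Agent.N98.PJ

namespace Pool.Agent.V5helper91.QC

noncomputable section

variable {k K : Type} [Field k] [Field K] [Algebra k K] (M : Submodule k K)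

/-- The chart ring. -/
abbrev cring (a : K) : Subalgebra k K := Algebra.adjoin k {y : K | ∃ m ∈ M, y = m / a}

lemma psi_eq_av' (a : K) (ha : a ∈ M) (ha0 : a ≠ 0) (h : evalOne M (tElt M a ha) ≠ 0)
    (z : Away (mPiece M) (tElt M a ha)) :
    psi M a ha ha0 z = av (mPiece M) (evalOne M) (tElt M a ha) h z := rfl

/-- The isomorphism of the chart. -/
def chartIso (a : K) (ha : a ∈ M) (ha0 : a ≠ 0) :
    Spec (.of (cring M a)) ⟶
      Spec (.of (Away (mPiece M) (tElt M a ha))) :=
  Spec.map (CommRingCat.ofHom (chartEquiv M a ha ha0 : Away (mPiece M) (tElt M a ha) →+*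
    Algebra.adjoin k {y : K | ∃ m ∈ M, y = m / a}))

instance (a : K) (ha : a ∈ M) (ha0 : a ≠ 0) : IsIso (chartIso M a ha ha0) := by
  have h1 : CommRingCat.ofHom (chartEquiv M a ha ha0 : Away (mPiece M) (tElt M a ha) →+*
      Algebra.adjoin k {y : K | ∃ m ∈ M, y = m / a}) =
      (chartEquiv M a ha ha0).toCommRingCatIso.hom := rfl
  unfold chartIso
  rw [h1]
  infer_instance

/-- The chart of the model. -/
def chartB (a : K) (ha : a ∈ M) (ha0 : a ≠ 0) : Spec (.of (cring M a)) ⟶ Proj (mPiece M) :=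
  chartIso M a ha ha0 ≫ Proj.awayι (mPiece M) (tElt M a ha) (tElt_mem M a ha) one_pos

instance chartB_open (a : K) (ha : a ∈ M) (ha0 : a ≠ 0) : IsOpenImmersion (chartB M a ha ha0) :=
  IsOpenImmersion.comp _ _

lemma chartB_opensRange (a : K) (ha : a ∈ M) (ha0 : a ≠ 0) :
    (chartB M a ha ha0).opensRange = Proj.basicOpen (mPiece M) (tElt M a ha) :=
  (Scheme.Hom.opensRange_comp_of_isIso _ _).trans (Proj.opensRange_awayι _ _ _ _)

lemma chartB_pt (a : K) (ha : a ∈ M) (ha0 : a ≠ 0) (h : evalOne M (tElt M a ha) ≠ 0) :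
    Spec.map (CommRingCat.ofHom (cring M a).val.toRingHom) ≫ chartB M a ha ha0 =
      pt (mPiece M) (evalOne M) (tElt_mem M a ha) one_pos h := by
  unfold chartB pt chartIso
  rw [← Category.assoc, ← Spec.map_comp, ← CommRingCat.ofHom_comp]
  rfl

lemma chartB_toSpecZero (a : K) (ha : a ∈ M) (ha0 : a ≠ 0) :
    chartB M a ha ha0 ≫ Proj.toSpecZero (mPiece M) ≫ Spec.map (toZeroHom M) =
      Spec.map (CommRingCat.ofHom (algebraMap k (cring M a))) := by
  unfold chartB chartIso
  rw [Category.assoc, Proj.awayι_toSpecZero_assoc, ← Spec.map_comp, ← Spec.map_comp]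
  congr 1
  apply CommRingCat.hom_ext
  ext r
  change psi M a ha ha0 (fromZeroRingHom (mPiece M) _ (toZero M r)) = algebraMap k K r
  have h0 : evalOne M (tElt M a ha) ≠ 0 := by rw [evalOne_tElt]; exact ha0
  rw [psi_eq_av' M a ha ha0 h0, av_fromZero]
  exact evalOne_mMon M 0 _ (by rw [pow_zero]; exact Submodule.mem_one.2 ⟨r, rfl⟩)

/-- The preimage in a chart of the open set `D₊(b)`. -/
lemma chartB_preimage (a : K) (ha : a ∈ M) (ha0 : a ≠ 0) (b : K) (hb : b ∈ M) :
    ∀ x : Spec (.of (cring M a)), (chartB M a ha ha0 x ∈ Proj.basicOpen (mPiece M) (tElt M b hb) ↔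
      (⟨b / a, Algebra.subset_adjoin ⟨b, hb, rfl⟩⟩ : cring M a) ∉ (x : PrimeSpectrum (cring M a)).asIdeal) := by
  intro x
  have h1 := congrArg (fun U : (Spec (.of (Away (mPiece M) (tElt M a ha)))).Opens =>
    chartIso M a ha ha0 x ∈ U) (Proj.awayι_preimage_basicOpen (𝒜 := mPiece M) (tElt_mem M a ha)
      one_pos (tElt_mem M b hb) one_pos)
  have h2 : (chartB M a ha ha0 x ∈ Proj.basicOpen (mPiece M) (tElt M b hb)) ↔
    chartIso M a ha ha0 x ∈ (Proj.awayι (mPiece M) (tElt M a ha) (tElt_mem M a ha) one_pos) ⁻¹ᵁ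
      Proj.basicOpen (mPiece M) (tElt M b hb) := Iff.rfl
  rw [h2]
  refine (iff_of_eq h1).trans ?_
  have h3 : (chartEquiv M a ha ha0)
      (Away.isLocalizationElem (tElt_mem M a ha) (tElt_mem M b hb)) =
      (⟨b / a, Algebra.subset_adjoin ⟨b, hb, rfl⟩⟩ : cring M a) := by
    apply Subtype.ext
    change psi M a ha ha0 _ = b / a
    rw [psi_eq_av' M a ha ha0 (by rw [evalOne_tElt]; exact ha0)]
    unfold Away.isLocalizationElem
    rw [av_mk, pow_one, pow_one, evalOne_tElt, evalOne_tElt]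
  rw [← h3]
  exact Iff.rfl

end

end Pool.Agent.V5helper91.QC
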