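import Pool.Agent.V5helper91.QC.PSide

/-! Transfer of sections along an isomorphism. -/

set_option autoImplicit false
set_option linter.unusedSectionVars false

open AlgebraicGeometry CategoryTheory TopologicalSpace

namespace Pool.Agent.V5helper91.QC

noncomputable section

section gen

variable {F L : Type} [Field F] [Field L] {X Y : Scheme.{0}}

lemma ev_comp (χ : Spec (CommRingCat.of L) ⟶ Y) (g : Y ⟶ X) (V : X.Opens)
    (h : ⊤ ≤ (χ ≫ g) ⁻¹ᵁ V) (h' : ⊤ ≤ χ ⁻¹ᵁ (g ⁻¹ᵁ V)) (s : Γ(X, V)) :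
    ev (χ ≫ g) V h s = ev χ (g ⁻¹ᵁ V) h' ((g.app V).hom s) := by
  unfold ev
  rw [RingHom.comp_apply, RingHom.comp_apply, Scheme.Hom.comp_appLE, CommRingCat.comp_apply]

lemma ev_spec (ψ : F →+* L) (χ : Spec (CommRingCat.of F) ⟶ X) (V : X.Opens)
    (h : ⊤ ≤ (Spec.map (CommRingCat.ofHom ψ) ≫ χ) ⁻¹ᵁ V) (h' : ⊤ ≤ χ ⁻¹ᵁ V) (s : Γ(X, V)) :
    ev (Spec.map (CommRingCat.ofHom ψ) ≫ χ) V h s = ψ (ev χ V h' s) := by
  unfold ev
  rw [RingHom.comp_apply, RingHom.comp_apply,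
    ← Scheme.Hom.appLE_comp_appLE (Spec.map (CommRingCat.ofHom ψ)) χ V ⊤ ⊤ h' le_top,
    CommRingCat.comp_apply]
  have h2 := congrArg (fun g => g.hom (χ.appLE V ⊤ h' s))
    (Scheme.ΓSpecIso_naturality (CommRingCat.ofHom ψ))
  simp only [CommRingCat.hom_comp, RingHom.comp_apply] at h2
  have h3 : (Spec.map (CommRingCat.ofHom ψ)).appLE ⊤ ⊤ le_top =
    (Spec.map (CommRingCat.ofHom ψ)).appTop := Scheme.Hom.appLE_eq_app _
  rw [h3]
  exact h2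

/-- Regularity at a point of an element of the field. -/
def Reg (χ : Spec (CommRingCat.of F) ⟶ X) (x : X) (b : F) : Prop :=
  ∃ (V : X.Opens) (h : ⊤ ≤ χ ⁻¹ᵁ V) (s : Γ(X, V)), x ∈ V ∧ ev χ V h s = b

variable (χX : Spec (CommRingCat.of F) ⟶ X) (χY : Spec (CommRingCat.of L) ⟶ Y) (ψ : F →+* L)
  (e : X ≅ Y) (hψ : χY ≫ e.inv = Spec.map (CommRingCat.ofHom ψ) ≫ χX)

include hψ in
lemma le_of_le {V : X.Opens} (h : ⊤ ≤ χX ⁻¹ᵁ V) : ⊤ ≤ χY ⁻¹ᵁ (e.inv ⁻¹ᵁ V) := by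
  intro x _
  change (χY ≫ e.inv) x ∈ V
  rw [hψ]
  exact h (show Spec.map (CommRingCat.ofHom ψ) x ∈ ⊤ from trivial)

include hψ in
lemma le_of_le' {V : Y.Opens} (h : ⊤ ≤ χY ⁻¹ᵁ V) : ⊤ ≤ χX ⁻¹ᵁ (e.hom ⁻¹ᵁ V) := by
  intro x _
  obtain ⟨y⟩ : Nonempty (Spec (CommRingCat.of L)) := inferInstance
  have h1 : (χY ≫ e.inv ≫ e.hom) y ∈ V := by
    rw [Iso.inv_hom_id, Category.comp_id]
    exact h (show y ∈ ⊤ from trivial)
  rw [← Category.assoc, hψ] at h1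
  have h2 : Spec.map (CommRingCat.ofHom ψ) y = x := by
    have : Subsingleton (PrimeSpectrum F) := inferInstance
    exact Subsingleton.elim (α := PrimeSpectrum F) _ _
  rw [← h2]
  exact h1

include hψ in
lemma ev_pull {V : X.Opens} (h : ⊤ ≤ χX ⁻¹ᵁ V) (s : Γ(X, V)) :
    ev χY (e.inv ⁻¹ᵁ V) (le_of_le χX χY ψ e hψ h) ((e.inv.app V).hom s) = ψ (ev χX V h s) := by
  have h1 : ⊤ ≤ (χY ≫ e.inv) ⁻¹ᵁ V := le_of_le χX χY ψ e hψ h
  have h2 : ⊤ ≤ (Spec.map (CommRingCat.ofHom ψ) ≫ χX) ⁻¹ᵁ V := by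
    rw [← hψ]
    exact h1
  rw [← ev_comp χY e.inv V h1, ev_congr hψ V h1 h2, ev_spec ψ χX V h2 h]

include hψ in
lemma ev_push {V : Y.Opens} (h : ⊤ ≤ χY ⁻¹ᵁ V) (s : Γ(Y, V)) :
    ψ (ev χX (e.hom ⁻¹ᵁ V) (le_of_le' χX χY ψ e hψ h) ((e.hom.app V).hom s)) = ev χY V h s := by
  have h1 := le_of_le' χX χY ψ e hψ h
  rw [← ev_pull χX χY ψ e hψ h1 ((e.hom.app V).hom s)]
  have h2 : ⊤ ≤ ((χY ≫ e.inv) ≫ e.hom) ⁻¹ᵁ V := by
    rw [Category.assoc, Iso.inv_hom_id, Category.comp_id]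
    exact h
  have h3 : (χY ≫ e.inv) ≫ e.hom = χY := by
    rw [Category.assoc, Iso.inv_hom_id, Category.comp_id]
  rw [← ev_congr h3 V h2 h, ev_comp (χY ≫ e.inv) e.hom V h2 (by exact h2),
    ev_comp χY e.inv (e.hom ⁻¹ᵁ V) (by exact h2) (by exact h2)]

include hψ in
lemma Reg.pull {y : Y} {b : F} (h : Reg χX (e.inv y) b) : Reg χY y (ψ b) := by
  obtain ⟨V, h, s, hy, rfl⟩ := h
  exact ⟨e.inv ⁻¹ᵁ V, le_of_le χX χY ψ e hψ h, (e.inv.app V).hom s, hy,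
    ev_pull χX χY ψ e hψ h s⟩

include hψ in
lemma Reg.push {y : Y} {b : F} (h : Reg χY y (ψ b)) : Reg χX (e.inv y) b := by
  obtain ⟨V, h, s, hy, hb⟩ := h
  refine ⟨e.hom ⁻¹ᵁ V, le_of_le' χX χY ψ e hψ h, (e.hom.app V).hom s, ?_, ?_⟩
  · change (e.inv ≫ e.hom) y ∈ V
    rw [Iso.inv_hom_id]
    exact hy
  · apply ψ.injective
    rw [ev_push χX χY ψ e hψ h s, hb]

end gen

section atlas

variable {k F : Type} [Field k] [Field F] [Algebra k F] {X : Scheme.{0}} [IsIntegral X]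
  {p : X ⟶ Spec (CommRingCat.of k)} (A : Atlas (F := F) p) {L : Type} [Field L]

lemma Atlas.ev_chart (j : A.J) (θ : A.B j →+* L) (χ : Spec (CommRingCat.of L) ⟶ X)
    (hχ : Spec.map (CommRingCat.ofHom θ) ≫ A.c j = χ) (h : ⊤ ≤ χ ⁻¹ᵁ (A.U j))
    (s : Γ(X, A.U j)) : ev χ (A.U j) h s = θ (A.toB j s) := by
  subst hχ
  unfold ev Atlas.toB
  rw [RingHom.comp_apply, RingHom.comp_apply,
    ← Scheme.Hom.appLE_comp_appLE (Spec.map (CommRingCat.ofHom θ)) (A.c j)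
      (A.U j) ⊤ ⊤ (A.top_le j) le_top, CommRingCat.comp_apply]
  have h2 := congrArg (fun f => f.hom ((A.c j).appLE (A.U j) ⊤ (A.top_le j) s))
    (Scheme.ΓSpecIso_naturality (CommRingCat.ofHom θ))
  simp only [CommRingCat.hom_comp, RingHom.comp_apply] at h2
  have h3 : (Spec.map (CommRingCat.ofHom θ)).appLE ⊤ ⊤ le_top =
    (Spec.map (CommRingCat.ofHom θ)).appTop := Scheme.Hom.appLE_eq_app _
  rw [h3]
  exact h2

/-- A generic point with values in a field gives a homomorphism from the function field. -/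
lemma Atlas.exists_hom (j : A.J) (hfr : IsFractionRing (A.B j) F)
    (χ : Spec (CommRingCat.of L) ⟶ X) (hgen : ∀ V : X.Opens, V ≠ ⊥ → ⊤ ≤ χ ⁻¹ᵁ V) :
    ∃ ψ : F →+* L, χ = Spec.map (CommRingCat.ofHom ψ) ≫ A.χ := by
  have hU : A.U j ≠ ⊥ := by
    intro h0
    obtain ⟨x⟩ : Nonempty (Spec (CommRingCat.of F)) := inferInstance
    have h1 := A.hU j (show x ∈ ⊤ from trivial)
    rw [h0] at h1
    exact h1
  have hr : Set.range χ ⊆ Set.range (A.c j) := by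
    rintro _ ⟨x, rfl⟩
    exact hgen _ hU (show x ∈ ⊤ from trivial)
  have hfac := IsOpenImmersion.lift_fac (A.c j) χ hr
  obtain ⟨θ, hθ⟩ := Spec.map_surjective (IsOpenImmersion.lift (A.c j) χ hr)
  rw [← hθ] at hfac
  have hfac' : Spec.map (CommRingCat.ofHom θ.hom) ≫ A.c j = χ := hfac
  have hinj : Function.Injective θ.hom := by
    rw [injective_iff_map_eq_zero]
    intro b hb
    obtain ⟨s, hs⟩ := (A.toB_bijective j).2 b
    by_contra hb0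
    have hs0 : s ≠ 0 := by
      rintro rfl
      rw [map_zero] at hs
      exact hb0 hs.symm
    have h1 : X.basicOpen s ≠ ⊥ := fun h2 => hs0 ((basicOpen_eq_bot_iff s).1 h2)
    have h2 := (ev_ne_zero_iff χ (hgen _ hU) s).2 (hgen _ h1)
    rw [A.ev_chart j θ.hom χ hfac' (hgen _ hU) s, hs] at h2
    exact h2 hb
  refine ⟨IsFractionRing.lift hinj, ?_⟩
  rw [← A.hχ j, ← Category.assoc, ← Spec.map_comp, ← CommRingCat.ofHom_comp]
  have h4 : (IsFractionRing.lift hinj).comp (A.B j).val.toRingHom = θ.hom := by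
    ext b
    exact IsFractionRing.lift_algebraMap hinj b
  rw [h4]
  exact hfac'.symm

end atlas

end

end Pool.Agent.V5helper91.QC
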