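import Pool.Agent.V5helper91.QC.HZero
import Pool.Agent.V5helper91.QC.Transfer
import Pool.Agent.V5helper91.QC.Div
import Pool.Agent.V5helper91.QC.Alg

/-! The quadric is not isomorphic to projective space. -/

set_option autoImplicit false
set_option linter.unusedSectionVars false

open AlgebraicGeometry CategoryTheory TopologicalSpace MvPolynomial
open Pool.Agent.N98.PJ

namespace Pool.Agent.V5helper91.QC

noncomputable section

attribute [local instance] MvPolynomial.gradedAlgebra

section indep

variable (k : Type) [Field k] (I : Type) [Fintype I] [DecidableEq I] (i₀ : I)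

lemma eval_vr (j : Vr I i₀) (t : k) (l : I × Bool) :
    eval (fun i : Vr I i₀ => if i = j then t else 0) (vr k I i₀ l) = if l = j.1 then t else 0 := by
  by_cases h : l = (i₀, false)
  · have h1 : vr k I i₀ l = 0 := by
      unfold vr
      rw [dif_neg (by simpa using h)]
    rw [h1, map_zero, if_neg]
    rintro rfl
    exact j.2 h
  · rw [vr_of_ne k I i₀ l h, eval_X]
    by_cases h2 : l = j.1
    · rw [if_pos h2, if_pos (Subtype.ext h2)]
    · rw [if_neg h2, if_neg]
      intro h3
      exact h2 (congrArg Subtype.val h3)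

lemma eval_qq (j : Vr I i₀) (t : k) :
    eval (fun i : Vr I i₀ => if i = j then t else 0) (qq k I i₀) =
      if (i₀, true) = j.1 then t ^ 2 else 0 := by
  unfold qq
  rw [map_sub, map_pow, eval_vr, map_sum, Finset.sum_eq_zero, sub_zero]
  · split_ifs
    · rfl
    · rw [zero_pow two_ne_zero]
  · intro i _
    rw [map_mul, eval_vr, eval_vr]
    by_cases h1 : (i, false) = j.1
    · rw [if_neg (c := (i, true) = j.1), mul_zero]
      rw [← h1]
      simp
    · rw [if_neg h1, zero_mul]

lemma eval_hR (j : Vr I i₀) (t : k) (l : I × Bool) :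
    eval (fun i : Vr I i₀ => if i = j then t else 0) (hR k I i₀ l) =
      (if l = (i₀, false) then 1 else 0) +
      (if l = (i₀, true) then (if (i₀, true) = j.1 then t ^ 2 else 0) else 0) +
      (if l = j.1 then (if (i₀, true) = j.1 then 0 else t) else 0) := by
  unfold hR
  by_cases h1 : l = (i₀, false)
  · rw [if_pos h1, if_pos h1, if_neg, if_neg, map_one, add_zero, add_zero]
    · rintro rfl
      exact j.2 h1
    · rw [h1]
      simp
  · rw [if_neg h1, if_neg h1, zero_add]
    by_cases h2 : l = (i₀, true)
    · rw [if_pos h2, if_pos h2, eval_qq]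
      by_cases h3 : (i₀, true) = j.1
      · rw [if_pos h3, if_pos h3]
        split_ifs <;> simp
      · rw [if_neg h3, if_neg h3, if_neg, add_zero]
        rw [h2]
        exact h3
    · rw [if_neg h2, if_neg h2, zero_add, eval_vr]
      by_cases h3 : l = j.1
      · rw [if_pos h3, if_pos h3, if_neg]
        rw [← h3]
        exact fun h => h2 h.symm
      · rw [if_neg h3, if_neg h3]

/-- The homogeneous coordinates are linearly independent. -/
lemma coord_indep (hk : ∃ t : k, t ≠ 0 ∧ t ≠ 1) (c : I × Bool → k) (d : k)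
    (h : ∑ l, c l • (QQ k I i₀).h l + d • (QQ k I i₀).z = 0) : (∀ l, c l = 0) ∧ d = 0 := by
  have h1 : ∑ l, C (c l) * hR k I i₀ l + C d * vr k I i₀ (i₀, true) = 0 := by
    apply IsFractionRing.injective (RR k I i₀) (KK k I i₀)
    rw [map_add, map_sum, map_zero, ← h]
    congr 1
    · refine Finset.sum_congr rfl fun l _ => ?_
      rw [map_mul, QQ_h, Algebra.smul_def, IsScalarTower.algebraMap_apply k (RR k I i₀) (KK k I i₀)]
      rfl
    · rw [map_mul, QQ_z, Algebra.smul_def, IsScalarTower.algebraMap_apply k (RR k I i₀) (KK k I i₀)]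
      rfl
  have h2 : ∀ (j : Vr I i₀) (t : k), c (i₀, false) +
      c (i₀, true) * (if (i₀, true) = j.1 then t ^ 2 else 0) +
      c j.1 * (if (i₀, true) = j.1 then 0 else t) + d * (if (i₀, true) = j.1 then t else 0) = 0 := by
    intro j t
    have h3 := congrArg (eval (fun i : Vr I i₀ => if i = j then t else 0)) h1
    rw [map_add, map_sum, map_mul, eval_vr, eval_C, map_zero] at h3
    refine Eq.trans ?_ h3
    congr 1
    have h4 : ∀ l : I × Bool, eval (fun i : Vr I i₀ => if i = j then t else 0)
        (C (c l) * hR k I i₀ l) = (if l = (i₀, false) then c l else 0) +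
      (if l = (i₀, true) then c l * (if (i₀, true) = j.1 then t ^ 2 else 0) else 0) +
      (if l = j.1 then c l * (if (i₀, true) = j.1 then 0 else t) else 0) := by
      intro l
      rw [map_mul, eval_C, eval_hR, mul_add, mul_add, mul_ite, mul_one, mul_zero]
      congr 1
      · congr 1
        by_cases h5 : l = (i₀, true)
        · rw [if_pos h5, if_pos h5]
        · rw [if_neg h5, if_neg h5, mul_zero]
      · by_cases h5 : l = j.1
        · rw [if_pos h5, if_pos h5]
        · rw [if_neg h5, if_neg h5, mul_zero]
    rw [Finset.sum_congr rfl fun l _ => h4 l, Finset.sum_add_distrib, Finset.sum_add_distrib,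
      Finset.sum_ite_eq', Finset.sum_ite_eq', Finset.sum_ite_eq', if_pos (Finset.mem_univ _),
      if_pos (Finset.mem_univ _), if_pos (Finset.mem_univ _)]
  have hz : (i₀, true) ≠ ((i₀, false) : I × Bool) := by simp
  have e0 : c (i₀, false) = 0 := by
    have := h2 ⟨(i₀, true), hz⟩ 0
    simpa using this
  have e1 : ∀ l, l ≠ (i₀, false) → l ≠ (i₀, true) → c l = 0 := by
    intro l hl hl'
    have := h2 ⟨l, hl⟩ 1
    rw [if_neg (fun h => hl' h.symm), if_neg (fun h => hl' h.symm), if_neg (fun h => hl' h.symm),
      e0] at this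
    simpa using this
  have e2 : c (i₀, true) + d = 0 := by
    have := h2 ⟨(i₀, true), hz⟩ 1
    rw [e0] at this
    simpa using this
  obtain ⟨t, ht0, ht1⟩ := hk
  have e3 : c (i₀, true) * t ^ 2 + d * t = 0 := by
    have := h2 ⟨(i₀, true), hz⟩ t
    rw [e0] at this
    simpa using this
  have e4 : c (i₀, true) = 0 := by
    have h3 : c (i₀, true) * (t * (t - 1)) = 0 := by
      have h5 : d = - c (i₀, true) := by
        rw [eq_neg_iff_add_eq_zero, add_comm]
        exact e2
      rw [h5] at e3
      rw [← e3]
      ring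
    exact (mul_eq_zero.1 h3).resolve_right (mul_ne_zero ht0 (sub_ne_zero.2 ht1))
  have e5 : d = 0 := by
    rw [e4, zero_add] at e2
    exact e2
  refine ⟨?_, e5⟩
  intro l
  by_cases h3 : l = (i₀, false)
  · rw [h3, e0]
  · by_cases h4 : l = (i₀, true)
    · rw [h4, e4]
    · exact e1 l h3 h4

/-- The first chart ring has the right fraction field. -/
lemma QQ_fraction : IsFractionRing (cring (QQ k I i₀).M ((QQ k I i₀).h (i₀, false))) (KK k I i₀) := by
  apply IsFractionRing.of_field
  intro z
  obtain ⟨a, b, hb, rfl⟩ := IsFractionRing.div_surjective (A := RR k I i₀) z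
  have key : ∀ P : RR k I i₀, algebraMap (RR k I i₀) (KK k I i₀) P ∈
      cring (QQ k I i₀).M ((QQ k I i₀).h (i₀, false)) := by
    intro P
    induction P using MvPolynomial.induction_on with
    | C a =>
      have : algebraMap (RR k I i₀) (KK k I i₀) (C a) = algebraMap k (KK k I i₀) a :=
        (IsScalarTower.algebraMap_apply k (RR k I i₀) (KK k I i₀) a).symm
      rw [this]
      exact Subalgebra.algebraMap_mem _ a
    | add p q hp hq =>
      rw [map_add]
      exact Subalgebra.add_mem _ hp hq
    | mul_X p l hp =>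
      rw [map_mul]
      refine Subalgebra.mul_mem _ hp (Algebra.subset_adjoin ⟨_, Submodule.subset_span
        (QQ_X k I i₀ l), ?_⟩)
      rw [QQ_h_zero, div_one]
  exact ⟨⟨_, key a⟩, ⟨_, key b⟩, rfl⟩

end indep

end

end Pool.Agent.V5helper91.QC
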