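import Pool.Agent.V5helper91.QC.Atlas
import Pool.Agent.N98.PJ.Pt

/-! Sections on open subsets of `Proj` as elements of a field. -/

set_option autoImplicit false
set_option linter.unusedSectionVars false

open AlgebraicGeometry CategoryTheory TopologicalSpace HomogeneousLocalization
open Pool.Agent.N98.PJ

namespace Pool.Agent.V5helper91.QC

noncomputable section

variable {A : Type} [CommRing A] {σ : Type} [SetLike σ A] [AddSubgroupClass σ A] (𝒜 : ℕ → σ)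
  [GradedRing 𝒜] {L : Type} [Field L] (φ : A →+* L)

/-- Sections over `D₊(f)` as elements of the homogeneous localization. -/
def toAw {f : A} {m : ℕ} (hf : f ∈ 𝒜 m) (hm : 0 < m) :
    Γ(Proj 𝒜, Proj.basicOpen 𝒜 f) →+* Away 𝒜 f :=
  ((Scheme.ΓSpecIso (CommRingCat.of (Away 𝒜 f))).hom.hom).comp
    ((Proj.awayι 𝒜 f hf hm).appLE (Proj.basicOpen 𝒜 f) ⊤ (by
      rw [← Proj.opensRange_awayι 𝒜 f hf hm, Scheme.Hom.preimage_opensRange])).hom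

lemma toAw_bijective {f : A} {m : ℕ} (hf : f ∈ 𝒜 m) (hm : 0 < m) :
    Function.Bijective (toAw 𝒜 hf hm) := by
  have h0 : (Proj.awayι 𝒜 f hf hm) ⁻¹ᵁ (Proj.basicOpen 𝒜 f) = ⊤ := by
    rw [← Proj.opensRange_awayι 𝒜 f hf hm, Scheme.Hom.preimage_opensRange]
  have h1 : IsIso ((Proj.awayι 𝒜 f hf hm).app (Proj.basicOpen 𝒜 f)) :=
    Scheme.Hom.isIso_app (Proj.awayι 𝒜 f hf hm) _ (Proj.opensRange_awayι 𝒜 f hf hm).ge
  have h2 : IsIso ((Proj.awayι 𝒜 f hf hm).appLE (Proj.basicOpen 𝒜 f) ⊤ h0.ge) := by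
    have h4 : (Proj.awayι 𝒜 f hf hm).appLE (Proj.basicOpen 𝒜 f) ⊤ h0.ge =
      (Proj.awayι 𝒜 f hf hm).app (Proj.basicOpen 𝒜 f) ≫
        (Spec (CommRingCat.of (Away 𝒜 f))).presheaf.map (eqToHom h0.symm).op := rfl
    rw [h4]
    infer_instance
  have h5 : Function.Bijective
      ((Proj.awayι 𝒜 f hf hm).appLE (Proj.basicOpen 𝒜 f) ⊤ h0.ge).hom :=
    (asIso ((Proj.awayι 𝒜 f hf hm).appLE (Proj.basicOpen 𝒜 f) ⊤
      h0.ge)).commRingCatIsoToRingEquiv.bijective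
  have h6 : Function.Bijective (Scheme.ΓSpecIso (CommRingCat.of (Away 𝒜 f))).hom.hom :=
    (Scheme.ΓSpecIso (CommRingCat.of (Away 𝒜 f))).commRingCatIsoToRingEquiv.bijective
  exact h6.comp h5

lemma pt_le {f : A} {m : ℕ} (hf : f ∈ 𝒜 m) (hm : 0 < m) (h : φ f ≠ 0) :
    ⊤ ≤ (pt 𝒜 φ hf hm h) ⁻¹ᵁ (Proj.basicOpen 𝒜 f) := by
  intro x _
  change pt 𝒜 φ hf hm h x ∈ Proj.basicOpen 𝒜 f
  rw [← Proj.opensRange_awayι 𝒜 f hf hm]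
  exact ⟨_, rfl⟩

lemma ev_eq_av {f : A} {m : ℕ} (hf : f ∈ 𝒜 m) (hm : 0 < m) (h : φ f ≠ 0)
    (s : Γ(Proj 𝒜, Proj.basicOpen 𝒜 f)) :
    ev (pt 𝒜 φ hf hm h) (Proj.basicOpen 𝒜 f) (pt_le 𝒜 φ hf hm h) s =
      av 𝒜 φ f h (toAw 𝒜 hf hm s) := by
  have h1 : ∀ (χ : Spec (CommRingCat.of L) ⟶ Proj 𝒜) (h' : ⊤ ≤ χ ⁻¹ᵁ (Proj.basicOpen 𝒜 f)),
      Spec.map (CommRingCat.ofHom (av 𝒜 φ f h)) ≫ Proj.awayι 𝒜 f hf hm = χ →
      ev χ (Proj.basicOpen 𝒜 f) h' s = av 𝒜 φ f h (toAw 𝒜 hf hm s) := by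
    rintro _ h' rfl
    unfold ev toAw
    rw [RingHom.comp_apply, RingHom.comp_apply,
      ← Scheme.Hom.appLE_comp_appLE (Spec.map (CommRingCat.ofHom (av 𝒜 φ f h)))
        (Proj.awayι 𝒜 f hf hm) (Proj.basicOpen 𝒜 f) ⊤ ⊤ (by
          rw [← Proj.opensRange_awayι 𝒜 f hf hm, Scheme.Hom.preimage_opensRange]) le_top,
      CommRingCat.comp_apply]
    have h2 := congrArg (fun g => g.hom ((Proj.awayι 𝒜 f hf hm).appLE (Proj.basicOpen 𝒜 f) ⊤ (by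
          rw [← Proj.opensRange_awayι 𝒜 f hf hm, Scheme.Hom.preimage_opensRange]) s))
      (Scheme.ΓSpecIso_naturality (CommRingCat.ofHom (av 𝒜 φ f h)))
    simp only [CommRingCat.hom_comp, RingHom.comp_apply] at h2
    have h3 : (Spec.map (CommRingCat.ofHom (av 𝒜 φ f h))).appLE ⊤ ⊤ le_top =
      (Spec.map (CommRingCat.ofHom (av 𝒜 φ f h))).appTop := Scheme.Hom.appLE_eq_app _
    rw [h3]
    exact h2
  exact h1 _ _ rfl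

lemma ev_congr {X : Scheme.{0}} {F : Type} [Field F] {χ χ' : Spec (CommRingCat.of F) ⟶ X}
    (hχ : χ = χ') (V : X.Opens) (h : ⊤ ≤ χ ⁻¹ᵁ V) (h' : ⊤ ≤ χ' ⁻¹ᵁ V) (s : Γ(X, V)) :
    ev χ V h s = ev χ' V h' s := by
  subst hχ
  rfl

variable {g : A} {e : ℕ} (hg : g ∈ 𝒜 e) (he : 0 < e) (hg0 : φ g ≠ 0)

lemma pt_le' {f : A} {m : ℕ} (hf : f ∈ 𝒜 m) (hm : 0 < m) (h : φ f ≠ 0) :
    ⊤ ≤ (pt 𝒜 φ hg he hg0) ⁻¹ᵁ (Proj.basicOpen 𝒜 f) := by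
  rw [pt_eq 𝒜 φ hg he hg0 hf hm h]
  exact pt_le 𝒜 φ hf hm h

/-- The sections over `D₊(f)` are the fractions with denominator a power of `f`. -/
lemma ev_basicOpen {f : A} {m : ℕ} (hf : f ∈ 𝒜 m) (hm : 0 < m) (h : φ f ≠ 0)
    (s : Γ(Proj 𝒜, Proj.basicOpen 𝒜 f)) :
    ∃ (n : ℕ) (a : A), a ∈ 𝒜 (n • m) ∧
      ev (pt 𝒜 φ hg he hg0) (Proj.basicOpen 𝒜 f) (pt_le' 𝒜 φ hg he hg0 hf hm h) s =
        φ a / φ f ^ n := by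
  obtain ⟨n, a, ha, h1⟩ := Away.mk_surjective 𝒜 hf (toAw 𝒜 hf hm s)
  refine ⟨n, a, ha, ?_⟩
  rw [ev_congr (pt_eq 𝒜 φ hg he hg0 hf hm h) _ _ (pt_le 𝒜 φ hf hm h), ev_eq_av, ← h1, av_mk]

lemma exists_sec_basicOpen {f : A} {m : ℕ} (hf : f ∈ 𝒜 m) (hm : 0 < m) (h : φ f ≠ 0) (a : A)
    (ha : a ∈ 𝒜 m) : ∃ s : Γ(Proj 𝒜, Proj.basicOpen 𝒜 f),
      ev (pt 𝒜 φ hg he hg0) (Proj.basicOpen 𝒜 f) (pt_le' 𝒜 φ hg he hg0 hf hm h) s =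
        φ a / φ f := by
  obtain ⟨s, hs⟩ := (toAw_bijective 𝒜 hf hm).2 (Away.mk 𝒜 hf 1 a (by rw [one_smul]; exact ha))
  refine ⟨s, ?_⟩
  rw [ev_congr (pt_eq 𝒜 φ hg he hg0 hf hm h) _ _ (pt_le 𝒜 φ hf hm h), ev_eq_av, hs, av_mk, pow_one]

/-- Homogeneous basic open sets form a basis. -/
lemma exists_basicOpen_le (V : (Proj 𝒜).Opens) (y : Proj 𝒜) (hy : y ∈ V) :
    ∃ (m : ℕ) (f : A), f ∈ 𝒜 m ∧ 0 < m ∧ y ∈ Proj.basicOpen 𝒜 f ∧ Proj.basicOpen 𝒜 f ≤ V := by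
  obtain ⟨_, ⟨f, rfl⟩, hyf, hfV⟩ := Opens.isBasis_iff_nbhd.1 (Proj.isBasis_basicOpen 𝒜) hy
  rw [Proj.basicOpen_eq_iSup_proj, Opens.mem_iSup] at hyf
  obtain ⟨i, hi⟩ := hyf
  -- an element of positive degree
  have h1 : ∃ (m : ℕ) (t : A), t ∈ 𝒜 m ∧ 0 < m ∧ y ∈ Proj.basicOpen 𝒜 t := by
    have hc := (Proj.affineOpenCover 𝒜).covers y
    have key : ∀ ij : (Σ i : PNat, 𝒜 i),
        y ∈ Set.range (Proj.awayι 𝒜 (ij.2 : A) ij.2.2 ij.1.2) →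
        ∃ (m : ℕ) (t : A), t ∈ 𝒜 m ∧ 0 < m ∧ y ∈ Proj.basicOpen 𝒜 t := by
      intro ij hij
      refine ⟨_, _, ij.2.2, ij.1.2, ?_⟩
      rw [← Proj.opensRange_awayι 𝒜 _ ij.2.2 ij.1.2]
      exact hij
    exact key ((Proj.affineOpenCover 𝒜).idx y) hc
  obtain ⟨m, t, ht, hm, hyt⟩ := h1
  refine ⟨i + m, GradedRing.proj 𝒜 i f * t, SetLike.mul_mem_graded (SetLike.coe_mem _) ht,
    by omega, ?_, ?_⟩
  · rw [Proj.basicOpen_mul]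
    exact ⟨hi, hyt⟩
  · rw [Proj.basicOpen_mul]
    refine inf_le_left.trans (le_trans ?_ hfV)
    rw [Proj.basicOpen_eq_iSup_proj 𝒜 f]
    exact le_iSup (fun i => Proj.basicOpen 𝒜 (GradedRing.proj 𝒜 i f)) i

/-- The point is generic. -/
lemma pt_generic (hφ : Function.Injective φ) (V : (Proj 𝒜).Opens) (hV : V ≠ ⊥) :
    ⊤ ≤ (pt 𝒜 φ hg he hg0) ⁻¹ᵁ V := by
  obtain ⟨y, hy⟩ : (V : Set (Proj 𝒜)).Nonempty := by
    rw [Set.nonempty_iff_ne_empty]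
    intro h
    apply hV
    ext z
    rw [h]
    rfl
  obtain ⟨m, f, hf, hm, hyf, hfV⟩ := exists_basicOpen_le 𝒜 V y hy
  have hf0 : f ≠ 0 := by
    rintro rfl
    rw [Proj.basicOpen_zero] at hyf
    exact hyf
  have h := pt_le' 𝒜 φ hg he hg0 hf hm (by rwa [Ne, map_eq_zero_iff _ hφ])
  exact fun x hx => hfV (h hx)

/-- Sections near a point are fractions with a denominator which does not vanish at the point. -/
lemma exists_frac_of_sec (hφ : Function.Injective φ) (V : (Proj 𝒜).Opens) (y : Proj 𝒜)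
    (hy : y ∈ V) (hV : ⊤ ≤ (pt 𝒜 φ hg he hg0) ⁻¹ᵁ V) (s : Γ(Proj 𝒜, V)) :
    ∃ (n : ℕ) (a f : A), a ∈ 𝒜 n ∧ f ∈ 𝒜 n ∧ y ∈ Proj.basicOpen 𝒜 f ∧
      ev (pt 𝒜 φ hg he hg0) V hV s = φ a / φ f := by
  obtain ⟨m, f, hf, hm, hyf, hfV⟩ := exists_basicOpen_le 𝒜 V y hy
  have hf0 : f ≠ 0 := by
    rintro rfl
    rw [Proj.basicOpen_zero] at hyf
    exact hyf
  have hf1 : φ f ≠ 0 := by rwa [Ne, map_eq_zero_iff _ hφ]
  obtain ⟨n, a, ha, h1⟩ := ev_basicOpen 𝒜 φ hg he hg0 hf hm hf1 (res hfV s)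
  rw [ev_res _ hV] at h1
  by_cases hn : n = 0
  · subst hn
    refine ⟨0, a, 1, ?_, SetLike.one_mem_graded 𝒜, ?_, ?_⟩
    · rwa [zero_smul] at ha
    · rw [Proj.basicOpen_one]
      trivial
    · rw [h1, pow_zero, map_one]
  · refine ⟨n • m, a, f ^ n, ha, SetLike.pow_mem_graded n hf, ?_, ?_⟩
    · rw [Proj.basicOpen_pow 𝒜 f n (Nat.pos_of_ne_zero hn)]
      exact hyf
    · rw [h1, map_pow]

end

end Pool.Agent.V5helper91.QC
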