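import Pool.Agent.V5helper91.QC.Model

/-! The quadric `z² = ∑ x_i y_i` in characteristic two, as a projective model. -/

set_option autoImplicit false
set_option linter.unusedSectionVars false

open AlgebraicGeometry CategoryTheory TopologicalSpace HomogeneousLocalization
open Pool.Agent.H968R2.Quad Pool.Agent.N98.PJ

namespace Pool.Agent.V5helper91.QC

noncomputable section

/-- The index of the partner of a variable. -/
def dual {I : Type} (l : I × Bool) : I × Bool := (l.1, !l.2)

/-- Homogeneous coordinates of the generic point of the quadric. -/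
structure QData (k K : Type) [Field k] [Field K] [Algebra k K] (I : Type) [Fintype I] where
  h : I × Bool → K
  z : K
  h_ne : ∀ l, h l ≠ 0
  rel : z ^ 2 = ∑ i, h (i, false) * h (i, true)

variable {k K : Type} [Field k] [Field K] [Algebra k K] {I : Type} [Fintype I]
  (Q : QData k K I)

/-- The space of the linear forms. -/
def QData.M : Submodule k K := Submodule.span k (Set.range Q.h ∪ {Q.z})

lemma QData.h_mem (l : I × Bool) : Q.h l ∈ Q.M := Submodule.subset_span (Or.inl ⟨l, rfl⟩)

lemma QData.z_mem : Q.z ∈ Q.M := Submodule.subset_span (Or.inr rfl)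

lemma QData.M_fg : Q.M.FG := by
  refine ⟨(Set.Finite.toFinset (s := Set.range Q.h ∪ {Q.z})
    ((Set.finite_range Q.h).union (Set.finite_singleton _))), ?_⟩
  rw [Set.Finite.coe_toFinset]
  rfl

/-- The quadric. -/
abbrev QData.X : Scheme.{0} := Proj (mPiece Q.M)

/-- Its structure morphism. -/
def QData.p : Q.X ⟶ Spec (CommRingCat.of k) :=
  Proj.toSpecZero (mPiece Q.M) ≫ Spec.map (toZeroHom Q.M)

lemma QData.isProper : IsProper Q.p :=
  modelMap_isProper Q.M (algebraMap k K).injective Q.M_fg

lemma QData.isIntegral (l : I × Bool) : IsIntegral Q.X :=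
  model_integral Q.M (Q.h l) (Q.h_mem l) (Q.h_ne l)

lemma QData.cover (y : Q.X) : ∃ l, y ∈ Proj.basicOpen (mPiece Q.M) (tElt Q.M (Q.h l) (Q.h_mem l)) := by
  by_contra hcon
  push Not at hcon
  have h1 : ∀ l, tElt Q.M (Q.h l) (Q.h_mem l) ∈
      ProjectiveSpectrum.asHomogeneousIdeal (𝒜 := mPiece Q.M) y := by
    intro l
    by_contra h
    exact hcon l h
  have hprime : (ProjectiveSpectrum.asHomogeneousIdeal (𝒜 := mPiece Q.M) y).toIdeal.IsPrime :=
    ProjectiveSpectrum.isPrime (𝒜 := mPiece Q.M) y
  have h2 : tElt Q.M Q.z Q.z_mem ∈ ProjectiveSpectrum.asHomogeneousIdeal (𝒜 := mPiece Q.M) y := by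
    have h3 : tElt Q.M Q.z Q.z_mem ^ 2 = ∑ i, tElt Q.M (Q.h (i, false)) (Q.h_mem _) *
        tElt Q.M (Q.h (i, true)) (Q.h_mem _) := by
      apply Subtype.ext
      simp only [SubmonoidClass.coe_pow, AddSubmonoidClass.coe_finsetSum, MulMemClass.coe_mul,
        tElt, mMon, Polynomial.monomial_pow, Polynomial.monomial_mul_monomial]
      rw [Q.rel, map_sum]
    have h4 : tElt Q.M Q.z Q.z_mem ^ 2 ∈
        (ProjectiveSpectrum.asHomogeneousIdeal (𝒜 := mPiece Q.M) y).toIdeal := by
      rw [h3]
      exact Ideal.sum_mem _ fun i _ => Ideal.mul_mem_right _ _ (h1 _)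
    exact hprime.mem_of_pow_mem 2 h4
  apply not_all_mem Q.M y
  intro b hb
  have key : ∀ b ∈ Submodule.span k (Set.range Q.h ∪ {Q.z}), ∀ hb : b ∈ Q.M, tElt Q.M b hb ∈
      (ProjectiveSpectrum.asHomogeneousIdeal (𝒜 := mPiece Q.M) y).toIdeal := by
    intro b hb'
    induction hb' using Submodule.span_induction with
    | mem x hx =>
      intro hb
      rcases hx with ⟨l, rfl⟩ | hx
      · exact h1 l
      · have : x = Q.z := hx
        subst this
        exact h2
    | zero =>
      intro hb
      have : tElt Q.M 0 hb = 0 := by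
        apply Subtype.ext
        simp [tElt, mMon]
      rw [this]
      exact Ideal.zero_mem _
    | add x y' hx hy ihx ihy =>
      intro hb
      have : tElt Q.M (x + y') hb = tElt Q.M x hx + tElt Q.M y' hy := by
        apply Subtype.ext
        simp only [tElt, mMon]
        change _ = Polynomial.monomial 1 x + Polynomial.monomial 1 y'
        rw [map_add]
      rw [this]
      exact Ideal.add_mem _ (ihx hx) (ihy hy)
    | smul r x hx ihx =>
      intro hb
      have : tElt Q.M (r • x) hb = algebraMap k (mAlg Q.M) r * tElt Q.M x hx := by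
        rw [← Algebra.smul_def]
        apply Subtype.ext
        simp only [tElt, mMon]
        change _ = r • Polynomial.monomial 1 x
        rw [Polynomial.smul_monomial]
      rw [this]
      exact Ideal.mul_mem_left _ _ (ihx hx)
  exact key b hb hb

/-- The generic point. -/
def QData.χ (l₀ : I × Bool) : Spec (CommRingCat.of K) ⟶ Q.X :=
  pt (mPiece Q.M) (evalOne Q.M) (tElt_mem Q.M (Q.h l₀) (Q.h_mem l₀)) one_pos
    (by rw [evalOne_tElt]; exact Q.h_ne l₀)

/-- The charts of the quadric. -/
abbrev QData.atlas (l₀ : I × Bool) : Atlas (F := K) Q.p where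
  χ := Q.χ l₀
  J := I × Bool
  B l := cring Q.M (Q.h l)
  c l := chartB Q.M (Q.h l) (Q.h_mem l) (Q.h_ne l)
  oi l := chartB_open _ _ _ _
  cov y := by
    obtain ⟨l, hl⟩ := Q.cover y
    refine ⟨l, ?_⟩
    rw [chartB_opensRange]
    exact hl
  hχ l := by
    rw [chartB_pt Q.M (Q.h l) (Q.h_mem l) (Q.h_ne l) (by rw [evalOne_tElt]; exact Q.h_ne l)]
    exact pt_eq _ _ _ _ _ _ _ _
  hg l := chartB_toSpecZero _ _ _ _

lemma QData.U_eq (l₀ l : I × Bool) :
    (Q.atlas l₀).U l = Proj.basicOpen (mPiece Q.M) (tElt Q.M (Q.h l) (Q.h_mem l)) :=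
  chartB_opensRange Q.M (Q.h l) (Q.h_mem l) (Q.h_ne l)

end

end Pool.Agent.V5helper91.QC
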